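import Mathlib

/-!
# Elements without fixed vectors in finite groups of matrices containing `-1`

Let a finite group act on a rational vector space of dimension `r`, and suppose that `-1` is the
operator of some element. Then at least `2 ^ (-r)` of all elements have no fixed vectors.
-/

open Matrix Finset Module

namespace Pool.Agent.L0h13.DN

section Minors

lemma det_inst {R : Type*} [CommRing R] {n : Type*} (f₁ f₂ : Fintype n)
    (d₁ d₂ : DecidableEq n) (M : Matrix n n R) :
    @Matrix.det n d₁ f₁ R _ M = @Matrix.det n d₂ f₂ R _ M := by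
  have h1 : d₁ = d₂ := Subsingleton.elim _ _
  have h2 : f₁ = f₂ := Subsingleton.elim _ _
  rw [h1, h2]

/-- The determinant of `1 + M` is the sum of the principal minors of `M`. -/
lemma det_add_one_aux {R : Type*} [CommRing R] {n : Type*} [Fintype n] [DecidableEq n]
    (A I : n → n → R) (hI : ∀ i j, I i j = if i = j then 1 else 0) :
    (Matrix.of (A + I)).det =
      ∑ s : Finset n, ((Matrix.of A).toSquareBlockProp (fun i => i ∈ s)).det := by
  have h1 : (Matrix.of (A + I)).det = ∑ s : Finset n, Matrix.detRowAlternating.toMultilinearMap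
      (s.piecewise A I) :=
    MultilinearMap.map_add_univ Matrix.detRowAlternating.toMultilinearMap A I
  rw [h1]
  refine Finset.sum_congr rfl (fun s _ => ?_)
  have h2 : Matrix.detRowAlternating.toMultilinearMap (s.piecewise A I) =
      (Matrix.of (s.piecewise A I)).det := rfl
  rw [h2, Matrix.twoBlockTriangular_det _ (fun i => i ∈ s)]
  · have h3 : (Matrix.of (s.piecewise A I)).toSquareBlockProp (fun i => i ∈ s) =
        (Matrix.of A).toSquareBlockProp (fun i => i ∈ s) := by
      ext i j
      simp only [Matrix.toSquareBlockProp_def, Matrix.of_apply]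
      rw [Finset.piecewise_eq_of_mem _ _ _ i.2]
    have h4 : (Matrix.of (s.piecewise A I)).toSquareBlockProp (fun i => ¬ i ∈ s) = 1 := by
      ext i j
      simp only [Matrix.toSquareBlockProp_def, Matrix.of_apply]
      rw [Finset.piecewise_eq_of_notMem _ _ _ i.2, hI, Matrix.one_apply]
      simp only [Subtype.ext_iff]
    rw [h3, h4, Matrix.det_one, mul_one]
    exact det_inst _ _ _ _ _
  · intro i hi j hj
    simp only [Matrix.of_apply]
    rw [Finset.piecewise_eq_of_notMem _ _ _ hi, hI, if_neg]
    rintro rfl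
    exact hi hj

lemma det_add_one {R : Type*} [CommRing R] {n : Type*} [Fintype n] [DecidableEq n]
    (M : Matrix n n R) :
    (M + 1).det = ∑ s : Finset n, (M.toSquareBlockProp (fun i => i ∈ s)).det :=
  det_add_one_aux M (1 : Matrix n n R) (fun _ _ => Matrix.one_apply)

end Minors

section Exterior

variable {V : Type*} [AddCommGroup V] [Module ℚ V] {r : ℕ} (b : Basis (Fin r) ℚ V)

/-- The matrix with the entries `b_j (f (b i))`. -/
noncomputable def mat (f : Module.End ℚ V) : Matrix (Fin r) (Fin r) ℚ :=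
  Matrix.of fun i j => b.coord j (f (b i))

lemma trace_map (f : Module.End ℚ V) (k : ℕ) :
    LinearMap.trace ℚ _ (exteriorPower.map k f) =
      ∑ s : Set.powersetCard (Fin r) k,
        ((mat b f).toSquareBlockProp (fun i => i ∈ (s : Finset (Fin r)))).det := by
  rw [LinearMap.trace_eq_matrix_trace ℚ (b.exteriorPower k), Matrix.trace]
  refine Finset.sum_congr rfl (fun s _ => ?_)
  rw [Matrix.diag_apply, LinearMap.toMatrix_apply, exteriorPower.basis_repr_apply,
    exteriorPower.basis_apply, exteriorPower.map_apply_ιMulti_family]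
  rw [exteriorPower.ιMulti_family, exteriorPower.ιMultiDual_apply_ιMulti]
  rw [← Matrix.det_submatrix_equiv_self ((s : Finset (Fin r)).orderIsoOfFin s.2).toEquiv]
  rfl

lemma sum_trace_map (f : Module.End ℚ V) :
    ∑ k ∈ Finset.range (r + 1), LinearMap.trace ℚ _ (exteriorPower.map k f) =
      (mat b f + 1).det := by
  rw [det_add_one]
  have h1 : ∀ k ∈ Finset.range (r + 1), LinearMap.trace ℚ _ (exteriorPower.map k f) =
      ∑ s ∈ (Finset.univ : Finset (Finset (Fin r))) with s.card = k,
        ((mat b f).toSquareBlockProp (fun i => i ∈ s)).det := by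
    intro k _
    rw [trace_map b f k]
    symm
    apply Finset.sum_subtype
    intro s
    rw [Finset.mem_filter]
    simp
  rw [Finset.sum_congr rfl h1]
  apply Finset.sum_fiberwise_of_maps_to
  intro s _
  rw [Finset.mem_range]
  have := Finset.card_le_univ s
  rw [Fintype.card_fin] at this
  omega

lemma mat_det (f : Module.End ℚ V) : (mat b f + 1).det = LinearMap.det (1 + f) := by
  rw [← LinearMap.det_toMatrix b, ← Matrix.det_transpose]
  congr 1
  ext i j
  rw [Matrix.transpose_apply, Matrix.add_apply, mat, Matrix.of_apply, LinearMap.toMatrix_apply,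
    LinearMap.add_apply, map_add, Finsupp.add_apply, Module.End.one_apply, Basis.repr_self,
    Basis.coord_apply, Matrix.one_apply, Finsupp.single_apply, add_comm]

end Exterior

section Rep

variable {Γ : Type*} [Group Γ] {V : Type*} [AddCommGroup V] [Module ℚ V]
  [FiniteDimensional ℚ V] (ρ : Representation ℚ Γ V)

/-- The representation on an exterior power. -/
noncomputable def extRep (k : ℕ) : Representation ℚ Γ (⋀[ℚ]^k V) where
  toFun g := exteriorPower.map k (ρ g)
  map_one' := by
    rw [map_one]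
    exact exteriorPower.map_id
  map_mul' g h := by
    rw [map_mul]
    exact exteriorPower.map_comp (ρ h) (ρ g)

variable [Finite Γ]

lemma sum_trace_nonneg {U : Type*} [AddCommGroup U] [Module ℚ U] [FiniteDimensional ℚ U]
    [Fintype Γ] (τ : Representation ℚ Γ U) : 0 ≤ ∑ g : Γ, LinearMap.trace ℚ U (τ g) := by
  have hcard : (Nat.card Γ : ℚ) ≠ 0 := by
    rw [Nat.cast_ne_zero]
    exact Nat.card_pos.ne'
  have : Invertible (Nat.card Γ : ℚ) := invertibleOfNonzero hcard
  have h1 := Representation.card_inv_mul_sum_char_eq_finrank τ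
  have h2 : (0 : ℚ) ≤ (Module.finrank ℚ (Representation.invariants τ) : ℚ) := Nat.cast_nonneg _
  rw [← h1] at h2
  have h3 : (0 : ℚ) < (Nat.card Γ : ℚ)⁻¹ := by
    rw [inv_pos]
    exact_mod_cast Nat.card_pos
  exact (mul_nonneg_iff_of_pos_left h3).1 h2

omit [FiniteDimensional ℚ V] in
lemma trace_zero [FiniteDimensional ℚ V] (f : Module.End ℚ V) :
    LinearMap.trace ℚ _ (exteriorPower.map 0 f) = 1 := by
  have h1 : exteriorPower.map 0 f = LinearMap.id := by
    apply LinearMap.ext
    intro x
    apply (exteriorPower.zeroEquiv ℚ V).injective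
    have h2 := congrArg (fun φ => φ x) (exteriorPower.zeroEquiv_naturality f)
    exact h2
  rw [h1, LinearMap.trace_id, exteriorPower.finrank_eq, Nat.choose_zero_right, Nat.cast_one]

/-- The sum of the determinants. -/
theorem card_le_sum_det [Fintype Γ] :
    (Nat.card Γ : ℚ) ≤ ∑ g : Γ, LinearMap.det (1 + ρ g) := by
  have h1 : ∀ g : Γ, LinearMap.det (1 + ρ g) =
      ∑ k ∈ Finset.range (Module.finrank ℚ V + 1),
        LinearMap.trace ℚ _ (exteriorPower.map k (ρ g)) := by
    intro g
    rw [← mat_det (Module.finBasis ℚ V), ← sum_trace_map (Module.finBasis ℚ V)]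
  rw [Finset.sum_congr rfl (fun g _ => h1 g), Finset.sum_comm, Finset.sum_range_succ']
  have h2 : ∑ g : Γ, LinearMap.trace ℚ _ (exteriorPower.map 0 (ρ g)) = (Nat.card Γ : ℚ) := by
    rw [Finset.sum_congr rfl (fun g _ => trace_zero (ρ g)), Finset.sum_const, Finset.card_univ,
      nsmul_eq_mul, mul_one, Nat.card_eq_fintype_card]
  rw [h2]
  have h3 : 0 ≤ ∑ k ∈ Finset.range (Module.finrank ℚ V),
      ∑ g : Γ, LinearMap.trace ℚ _ (exteriorPower.map (k + 1) (ρ g)) :=
    Finset.sum_nonneg (fun k _ => sum_trace_nonneg (extRep ρ (k + 1)))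
  linarith

lemma norm_det_le {r N : ℕ} (hN : 0 < N) {A : Matrix (Fin r) (Fin r) ℂ} (hA : A ^ N = 1) :
    ‖(A + 1).det‖ ≤ 2 ^ r := by
  have h1 : (A + 1).det = (-1) ^ r * A.charpoly.eval (-1) := by
    rw [Matrix.eval_charpoly]
    have h2 : Matrix.scalar (Fin r) (-1 : ℂ) - A = -(A + 1) := by
      ext i j
      simp only [Matrix.scalar_apply, Matrix.sub_apply, Matrix.neg_apply, Matrix.add_apply,
        Matrix.diagonal_apply, Matrix.one_apply]
      split_ifs <;> ring
    rw [h2, Matrix.det_neg, Fintype.card_fin, ← mul_assoc, ← mul_pow, neg_one_mul, neg_neg,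
      one_pow, one_mul]
  have hsp : A.charpoly.Splits := IsAlgClosed.splits _
  have h3 := hsp.eval_eq_prod_roots_of_monic A.charpoly_monic (-1)
  have h4 : ∀ z ∈ A.charpoly.roots, ‖z‖ = 1 := by
    intro z hz
    have h5 : A.charpoly.eval z = 0 := (Polynomial.mem_roots'.1 hz).2
    rw [Matrix.eval_charpoly] at h5
    obtain ⟨v, hv, hv0⟩ := Matrix.exists_mulVec_eq_zero_iff.2 h5
    have h6 : A.mulVec v = z • v := by
      rw [Matrix.sub_mulVec, sub_eq_zero] at hv0
      rw [← hv0]
      ext i
      simp [Matrix.scalar_apply, Matrix.mulVec_diagonal]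
    have h7 : ∀ M : ℕ, (A ^ M).mulVec v = z ^ M • v := by
      intro M
      induction M with
      | zero => rw [pow_zero, pow_zero, Matrix.one_mulVec, one_smul]
      | succ M ih =>
        rw [pow_succ, ← Matrix.mulVec_mulVec, h6, Matrix.mulVec_smul, ih, smul_smul, pow_succ']
    have h8 := h7 N
    rw [hA, Matrix.one_mulVec] at h8
    have h9 : (z ^ N - 1) • v = 0 := by rw [sub_smul, one_smul, ← h8, sub_self]
    rcases smul_eq_zero.1 h9 with h | h
    · exact Complex.norm_eq_one_of_pow_eq_one (sub_eq_zero.1 h) hN.ne'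
    · exact absurd h hv
  have h5 : A.charpoly.roots.card = r := by
    rw [← hsp.natDegree_eq_card_roots, Matrix.charpoly_natDegree_eq_dim, Fintype.card_fin]
  rw [h1, h3, norm_mul, norm_pow, norm_neg, norm_one, one_pow, one_mul]
  have h6 : ∀ s : Multiset ℂ, (∀ z ∈ s, ‖z‖ = 1) →
      ‖(s.map (fun a => (-1 : ℂ) - a)).prod‖ ≤ 2 ^ s.card := by
    intro s
    induction s using Multiset.induction_on with
    | empty => intro _; simp
    | cons a s ih =>
      intro h
      rw [Multiset.map_cons, Multiset.prod_cons, norm_mul, Multiset.card_cons, pow_succ']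
      refine mul_le_mul ?_ (ih (fun z hz => h z (Multiset.mem_cons_of_mem hz))) (norm_nonneg _)
        (by norm_num)
      refine (norm_sub_le _ _).trans ?_
      rw [norm_neg, norm_one, h a (Multiset.mem_cons_self a s)]
      norm_num
  have h7 := h6 _ h4
  rw [h5] at h7
  exact h7

omit [FiniteDimensional ℚ V] in
/-- The determinant of `1 + g` for `g` of finite order. -/
lemma abs_det_le [FiniteDimensional ℚ V] {f : Module.End ℚ V} {N : ℕ} (hN : 0 < N)
    (hf : f ^ N = 1) : |LinearMap.det (1 + f)| ≤ 2 ^ Module.finrank ℚ V := by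
  have b := Module.finBasis ℚ V
  have h1 : LinearMap.det (1 + f) = (LinearMap.toMatrix b b f + 1).det := by
    rw [← LinearMap.det_toMatrix b, map_add, add_comm, LinearMap.toMatrix_one]
  have h2 : (LinearMap.toMatrix b b f) ^ N = 1 := by
    have h3 : (LinearMap.toMatrix b b f) ^ N = LinearMap.toMatrix b b (f ^ N) :=
      (map_pow (LinearMap.toMatrixAlgEquiv b) f N).symm
    rw [h3, hf, LinearMap.toMatrix_one]
  have h3 : ((LinearMap.toMatrix b b f).map (algebraMap ℚ ℂ)) ^ N = 1 := by
    rw [← Matrix.map_pow, h2, Matrix.map_one _ (map_zero _) (map_one _)]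
  have h4 := norm_det_le hN h3
  have h5 : ((LinearMap.toMatrix b b f).map (algebraMap ℚ ℂ) + 1).det =
      (((LinearMap.toMatrix b b f + 1).det : ℚ) : ℂ) := by
    have h6 := RingHom.map_det (algebraMap ℚ ℂ) (LinearMap.toMatrix b b f + 1)
    rw [map_add, map_one] at h6
    exact h6.symm
  rw [h5, ← h1] at h4
  have h7 : ‖((LinearMap.det (1 + f) : ℚ) : ℂ)‖ = ((|LinearMap.det (1 + f)| : ℚ) : ℝ) := by
    rw [Complex.norm_ratCast, Rat.cast_abs]
  rw [h7] at h4
  exact_mod_cast h4

/-- **Elements without fixed vectors.** -/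
theorem card_le (c : Γ) (hc : ρ c = -1) :
    Nat.card Γ ≤ 2 ^ Module.finrank ℚ V * Nat.card {g : Γ // ∀ v, ρ g v = v → v = 0} := by
  classical
  have := Fintype.ofFinite Γ
  set S := (Finset.univ : Finset Γ).filter (fun g : Γ => LinearMap.det ((1 : Module.End ℚ V) + ρ g) ≠ 0) with hS
  have h1 := card_le_sum_det ρ
  have h2 : ∑ g : Γ, LinearMap.det ((1 : Module.End ℚ V) + ρ g) ≤ S.card * 2 ^ Module.finrank ℚ V := by
    have h3 : ∑ g : Γ, LinearMap.det ((1 : Module.End ℚ V) + ρ g) = ∑ g ∈ S, LinearMap.det ((1 : Module.End ℚ V) + ρ g) := by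
      symm
      apply Finset.sum_subset (Finset.subset_univ _)
      intro g _ hg
      by_contra hne
      exact hg (Finset.mem_filter.2 ⟨Finset.mem_univ _, hne⟩)
    rw [h3]
    refine (Finset.sum_le_card_nsmul S _ ((2 : ℚ) ^ Module.finrank ℚ V) (fun g _ => ?_)).trans ?_
    · refine (le_abs_self _).trans (abs_det_le (N := Nat.card Γ) Nat.card_pos ?_)
      rw [← map_pow, pow_card_eq_one', map_one]
    · rw [nsmul_eq_mul]
  have h3 : (Nat.card Γ : ℚ) ≤ ((2 ^ Module.finrank ℚ V * S.card : ℕ) : ℚ) := by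
    push_cast
    linarith
  have h4 : Nat.card Γ ≤ 2 ^ Module.finrank ℚ V * S.card := by exact_mod_cast h3
  refine h4.trans (Nat.mul_le_mul_left _ ?_)
  have h5 : ∀ g : S, ∀ v, ρ (c * g.1) v = v → v = 0 := by
    intro g v hv
    have hg := (Finset.mem_filter.1 g.2).2
    have h6 : v ∈ LinearMap.ker ((1 : Module.End ℚ V) + ρ g.1) := by
      rw [map_mul, hc] at hv
      have h7 : -(ρ g.1 v) = v := hv
      rw [LinearMap.mem_ker, LinearMap.add_apply, Module.End.one_apply]
      nth_rewrite 1 [← h7]
      exact neg_add_cancel _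
    by_contra hne
    apply hg
    rw [LinearMap.det_eq_zero_iff_ker_ne_bot, Submodule.ne_bot_iff]
    exact ⟨v, h6, hne⟩
  rw [← Fintype.card_coe, ← Nat.card_eq_fintype_card]
  exact Nat.card_le_card_of_injective
    (fun g : S => (⟨c * g.1, h5 g⟩ : {g : Γ // ∀ v, ρ g v = v → v = 0}))
    (fun g h hgh => Subtype.ext (mul_left_cancel (congrArg Subtype.val hgh)))

end Rep

end Pool.Agent.L0h13.DN
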