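import Pool.Agent.L0h13.DN.ArDefs
import Pool.Agent.L0h13.DN.Count

/-!
# Odd relations between Weil numbers
-/

open Polynomial

namespace Pool.Agent.L0h13.DN

variable {ι : Type} {E : Type} [Field E] [CharZero E] (S : WeilSystem ι E)

namespace WeilSystem

lemma q_ne : (S.q : E) ≠ 0 := by
  have := S.one_lt
  exact_mod_cast (by omega : S.q ≠ 0)

lemma val_act (g : E ≃ₐ[ℚ] E) (x : S.Letters) : S.val (S.act g x) = g (S.val x) := rfl

lemma fst_act (g : E ≃ₐ[ℚ] E) (x : S.Letters) : (S.act g x).1 = x.1 := rfl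

lemma aeval_val (x : S.Letters) : aeval (S.val x) (S.P x.1) = 0 := by
  have h := x.2.2
  rw [mem_rootSet] at h
  exact h.2

lemma val_mul (x : S.Letters) : S.val x * S.c (S.val x) = (S.q : E) ^ S.w x.1 :=
  S.weil x.1 _ (S.aeval_val x)

lemma val_ne (x : S.Letters) : S.val x ≠ 0 := by
  intro h
  have h1 := S.val_mul x
  rw [h, zero_mul] at h1
  exact pow_ne_zero _ S.q_ne h1.symm

lemma ext_letter {x y : S.Letters} (h1 : x.1 = y.1) (h2 : S.val x = S.val y) : x = y := by
  obtain ⟨s, a, ha⟩ := x
  obtain ⟨t, b, hb⟩ := y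
  obtain rfl : s = t := h1
  obtain rfl : a = b := h2
  rfl

lemma act_mul (g h : E ≃ₐ[ℚ] E) (x : S.Letters) : S.act (g * h) x = S.act g (S.act h x) :=
  S.ext_letter rfl rfl

lemma act_one (x : S.Letters) : S.act 1 x = x := S.ext_letter rfl rfl

lemma val_c (x : S.Letters) : S.val (S.act S.c x) = (S.q : E) ^ S.w x.1 / S.val x := by
  rw [eq_div_iff (S.val_ne x), mul_comm]
  exact S.val_mul x

lemma act_c_comm (g : E ≃ₐ[ℚ] E) (x : S.Letters) :
    S.act g (S.act S.c x) = S.act S.c (S.act g x) := by
  refine S.ext_letter (x := S.act g (S.act S.c x)) (y := S.act S.c (S.act g x)) rfl ?_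
  rw [val_act, val_c, val_c, map_div₀, map_pow, map_natCast, val_act]
  rfl

lemma act_c_c (x : S.Letters) : S.act S.c (S.act S.c x) = x := by
  refine S.ext_letter (x := S.act S.c (S.act S.c x)) (y := x) rfl ?_
  rw [val_c, val_c, fst_act, div_div_cancel₀ (pow_ne_zero _ S.q_ne)]

variable [Fintype ι]

noncomputable instance : Fintype S.Letters := by
  unfold Letters
  classical
  exact inferInstance

/-- The product over the letters. -/
lemma prod_letters (f : S.Letters → E) :
    ∏ x, f x = ∏ s : ι, ∏ a : (S.P s).rootSet E, f ⟨s, a⟩ := by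
  classical
  have h1 : ∏ x, f x = ∏ x : (Σ s : ι, (S.P s).rootSet E), f x := by
    apply Fintype.prod_equiv (Equiv.refl _)
    intro x
    rfl
  exact h1.trans (Fintype.prod_sigma (fun x : (Σ s : ι, (S.P s).rootSet E) => f x))

lemma isRelation_iff (u : S.Letters → ℤ) : S.IsRelation u ↔ ∏ x, S.val x ^ u x = 1 := by
  rw [prod_letters]
  rfl

lemma IsRelation.add {u u' : S.Letters → ℤ} (h : S.IsRelation u) (h' : S.IsRelation u') :
    S.IsRelation (u + u') := by
  rw [isRelation_iff] at *
  have h1 : ∏ x, S.val x ^ (u + u') x = (∏ x, S.val x ^ u x) * ∏ x, S.val x ^ u' x := by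
    rw [← Finset.prod_mul_distrib]
    exact Finset.prod_congr rfl (fun x _ => zpow_add₀ (S.val_ne x) _ _)
  rw [h1, h, h', one_mul]

lemma IsRelation.mul {u : S.Letters → ℤ} (h : S.IsRelation u) (n : ℤ) :
    S.IsRelation (fun x => n * u x) := by
  rw [isRelation_iff] at *
  have h1 : ∏ x, S.val x ^ (n * u x) = (∏ x, S.val x ^ u x) ^ n := by
    rw [← Finset.prod_zpow]
    exact Finset.prod_congr rfl (fun x _ => by rw [mul_comm, zpow_mul])
  rw [h1, h, one_zpow]

/-- The space of the odd relations. -/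
def oddSpace : Submodule ℚ (S.Letters → ℚ) where
  carrier := {v | S.IsOddRelation v}
  zero_mem' := by
    refine ⟨fun x => ?_, 1, 0, one_pos, fun x => ?_, ?_⟩
    · simp
    · simp
    · rw [isRelation_iff]
      simp
  add_mem' := by
    rintro v v' ⟨h1, N, u, hN, h2, h3⟩ ⟨h1', N', u', hN', h2', h3'⟩
    refine ⟨fun x => ?_, N * N', (fun x => (N' : ℤ) * u x) + (fun x => (N : ℤ) * u' x),
      Nat.mul_pos hN hN', fun x => ?_, (h3.mul S N').add S (h3'.mul S N)⟩
    · rw [Pi.add_apply, Pi.add_apply, h1, h1']; ring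
    · rw [Pi.add_apply, Pi.add_apply]
      push_cast
      rw [h2, h2']
      ring
  smul_mem' := by
    rintro r v ⟨h1, N, u, hN, h2, h3⟩
    refine ⟨fun x => ?_, r.den * N, fun x => r.num * u x, Nat.mul_pos r.den_pos hN, fun x => ?_,
      h3.mul S r.num⟩
    · rw [Pi.smul_apply, Pi.smul_apply, h1, smul_neg]
    · rw [Pi.smul_apply, smul_eq_mul]
      push_cast
      rw [h2]
      have h4 : (r.num : ℚ) = r.den * r := by
        rw [mul_comm]; exact (Rat.mul_den_eq_num r).symm
      rw [h4]
      ring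

lemma mem_oddSpace {v : S.Letters → ℚ} : v ∈ S.oddSpace ↔ S.IsOddRelation v := Iff.rfl

lemma span_eq : Submodule.span ℚ {v | S.IsOddRelation v} = S.oddSpace :=
  Submodule.span_eq S.oddSpace

lemma oddRank_eq : S.oddRank = Module.finrank ℚ S.oddSpace := by
  rw [oddRank, span_eq]

/-- The permutation of the letters. -/
def actEquiv (g : E ≃ₐ[ℚ] E) : S.Letters ≃ S.Letters where
  toFun := S.act g
  invFun := S.act g⁻¹
  left_inv x := by rw [← act_mul, inv_mul_cancel, act_one]
  right_inv x := by rw [← act_mul, mul_inv_cancel, act_one]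

lemma IsOddRelation.act {v : S.Letters → ℚ} (h : S.IsOddRelation v) (g : E ≃ₐ[ℚ] E) :
    S.IsOddRelation (fun x => v (S.act g x)) := by
  obtain ⟨h1, N, u, hN, h2, h3⟩ := h
  refine ⟨fun x => ?_, N, fun x => u (S.act g x), hN, fun x => h2 _, ?_⟩
  · beta_reduce
    rw [act_c_comm, h1]
  · rw [isRelation_iff] at *
    have h4 : g (∏ x, S.val x ^ u (S.act g x)) = 1 := by
      rw [map_prod, ← h3]
      refine Fintype.prod_equiv (S.actEquiv g) _ _ (fun x => ?_)
      rw [map_zpow₀]
      rfl
    exact (map_eq_one_iff g g.injective).1 h4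

/-- The representation on the space of odd relations. -/
def rep : Representation ℚ (E ≃ₐ[ℚ] E) S.oddSpace where
  toFun g :=
    { toFun := fun v => ⟨fun x => v.1 (S.act g⁻¹ x), IsOddRelation.act S v.2 g⁻¹⟩
      map_add' := fun _ _ => rfl
      map_smul' := fun _ _ => rfl }
  map_one' := by
    apply LinearMap.ext
    intro v
    apply Subtype.ext
    funext x
    change v.1 (S.act 1⁻¹ x) = v.1 x
    rw [inv_one, act_one]
  map_mul' g h := by
    apply LinearMap.ext
    intro v
    apply Subtype.ext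
    funext x
    change v.1 (S.act (g * h)⁻¹ x) = v.1 (S.act h⁻¹ (S.act g⁻¹ x))
    rw [mul_inv_rev, act_mul]

lemma rep_c : S.rep S.c = -1 := by
  apply LinearMap.ext
  intro v
  apply Subtype.ext
  funext x
  change v.1 (S.act S.c⁻¹ x) = -(v.1 x)
  have h1 := v.2.1 (S.act S.c⁻¹ x)
  rw [← act_mul, mul_inv_cancel, act_one] at h1
  rw [h1, neg_neg]

lemma isFree_iff (g : E ≃ₐ[ℚ] E) : S.IsFree g ↔ ∀ v, S.rep g v = v → v = 0 := by
  constructor
  · intro h v hv
    apply Subtype.ext
    apply h v.1 v.2
    intro x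
    have h1 := congrFun (congrArg Subtype.val hv) (S.act g x)
    change v.1 (S.act g⁻¹ (S.act g x)) = v.1 (S.act g x) at h1
    rw [← act_mul, inv_mul_cancel, act_one] at h1
    exact h1.symm
  · intro h v hv hg
    have h1 := h ⟨v, hv⟩ (by
      apply Subtype.ext
      funext x
      change v (S.act g⁻¹ x) = v x
      rw [← hg (S.act g⁻¹ x), ← act_mul, mul_inv_cancel, act_one])
    exact congrArg Subtype.val h1

/-- **The number of automorphisms without invariant odd relations.** -/
theorem card_le_isFree [FiniteDimensional ℚ E] :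
    Nat.card (E ≃ₐ[ℚ] E) ≤ 2 ^ S.oddRank * Nat.card {g : E ≃ₐ[ℚ] E // S.IsFree g} := by
  have h1 := card_le S.rep S.c S.rep_c
  rw [oddRank_eq]
  have h2 : Nat.card {g : E ≃ₐ[ℚ] E // S.IsFree g} =
      Nat.card {g : E ≃ₐ[ℚ] E // ∀ v, S.rep g v = v → v = 0} :=
    Nat.card_congr (Equiv.subtypeEquivRight (fun g => S.isFree_iff g))
  rw [h2]
  exact h1

/-- The space of the odd functions on the letters. -/
def oddFun : Submodule ℚ (S.Letters → ℚ) where
  carrier := {v | ∀ x, v (S.act S.c x) = -v x}
  zero_mem' := fun x => by simp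
  add_mem' := by
    intro v v' h h' x
    rw [Pi.add_apply, Pi.add_apply, h x, h' x]; ring
  smul_mem' := by
    intro r v h x
    rw [Pi.smul_apply, Pi.smul_apply, h x, smul_neg]

/-- The space of the even functions on the letters. -/
def evenFun : Submodule ℚ (S.Letters → ℚ) where
  carrier := {v | ∀ x, v (S.act S.c x) = v x}
  zero_mem' := fun x => by simp
  add_mem' := by
    intro v v' h h' x
    rw [Pi.add_apply, Pi.add_apply, h x, h' x]
  smul_mem' := by
    intro r v h x
    rw [Pi.smul_apply, Pi.smul_apply, h x]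

lemma two_mul_finrank_oddFun : 2 * Module.finrank ℚ S.oddFun ≤ Fintype.card S.Letters := by
  classical
  have hd : S.oddFun ⊓ S.evenFun = ⊥ := by
    rw [Submodule.eq_bot_iff]
    rintro v ⟨h1, h2⟩
    funext x
    have h3 := h1 x
    rw [h2 x] at h3
    change v x = 0
    linarith
  have h1 := Submodule.finrank_sup_add_finrank_inf_eq S.oddFun S.evenFun
  rw [hd, finrank_bot, add_zero] at h1
  have h2 : Module.finrank ℚ ↥(S.oddFun ⊔ S.evenFun) ≤ Fintype.card S.Letters := by
    have h3 := Submodule.finrank_le (S.oddFun ⊔ S.evenFun)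
    rwa [Module.finrank_fintype_fun_eq_card] at h3
  -- the multiplication by a sign
  let e := Fintype.equivFin S.Letters
  let sg : S.Letters → ℚ := fun x => if e x ≤ e (S.act S.c x) then 1 else -1
  have hsg : ∀ x, x ≠ S.act S.c x → sg (S.act S.c x) = -sg x := by
    intro x hx
    have hne : e x ≠ e (S.act S.c x) := fun h => hx (e.injective h)
    simp only [sg, act_c_c]
    rcases lt_or_gt_of_ne hne with h | h
    · rw [if_neg (not_le.2 h), if_pos h.le]
    · rw [if_pos h.le, if_neg (not_le.2 h), neg_neg]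
  have hsg0 : ∀ x, sg x ≠ 0 := by
    intro x
    simp only [sg]
    split_ifs
    · exact one_ne_zero
    · exact neg_ne_zero.2 one_ne_zero
  have hodd : ∀ v ∈ S.oddFun, ∀ x, x = S.act S.c x → v x = 0 := by
    intro v hv x hx
    have h4 := hv x
    rw [← hx] at h4
    linarith
  let T : S.oddFun →ₗ[ℚ] S.evenFun :=
    { toFun := fun v => ⟨fun x => sg x * v.1 x, by
        intro x
        beta_reduce
        by_cases hx : x = S.act S.c x
        · rw [← hx]
        · rw [hsg x hx, v.2 x]; ring⟩
      map_add' := by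
        intro v v'
        apply Subtype.ext
        funext x
        change sg x * (v.1 x + v'.1 x) = sg x * v.1 x + sg x * v'.1 x
        ring
      map_smul' := by
        intro r v
        apply Subtype.ext
        funext x
        change sg x * (r * v.1 x) = r * (sg x * v.1 x)
        ring }
  have hT : Function.Injective T := by
    intro v v' h
    apply Subtype.ext
    funext x
    have h5 : sg x * v.1 x = sg x * v'.1 x := congrFun (congrArg Subtype.val h) x
    exact mul_left_cancel₀ (hsg0 x) h5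
  have h6 := LinearMap.finrank_le_finrank_of_injective hT
  omega

lemma oddSpace_le : S.oddSpace ≤ S.oddFun := fun _ hv => hv.1

/-- If some letter is not a root of unity up to the weight, the rank of the odd relations is less
than half the number of the letters. -/
lemma oddRank_lt (h : ∃ x : S.Letters, ∀ n : ℕ, 0 < n → S.val x ^ n ≠ S.c (S.val x) ^ n) :
    2 * (S.oddRank + 1) ≤ Fintype.card S.Letters := by
  classical
  obtain ⟨x, hx⟩ := h
  have hne : x ≠ S.act S.c x := by
    intro h
    apply hx 1 one_pos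
    rw [pow_one, pow_one]
    exact congrArg S.val h
  have h1 : S.oddSpace < S.oddFun := by
    refine lt_of_le_of_ne S.oddSpace_le (fun heq => ?_)
    set v : S.Letters → ℚ := fun y => (if y = x then 1 else 0) -
      (if y = S.act S.c x then 1 else 0) with hv
    have hv1 : v ∈ S.oddFun := by
      intro y
      simp only [hv]
      have e1 : (S.act S.c y = x) ↔ y = S.act S.c x := by
        constructor
        · rintro rfl; rw [act_c_c]
        · rintro rfl; rw [act_c_c]
      have e2 : (S.act S.c y = S.act S.c x) ↔ y = x := by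
        constructor
        · intro h
          have h2 := congrArg (S.act S.c) h
          rwa [act_c_c, act_c_c] at h2
        · rintro rfl; rfl
      simp only [e1, e2]
      ring
    rw [← heq] at hv1
    obtain ⟨-, N, u, hN, h2, h3⟩ := hv1
    have hu : ∀ y, u y = N * ((if y = x then 1 else 0) - (if y = S.act S.c x then 1 else 0)) := by
      intro y
      have h4 := h2 y
      have h5 : (u y : ℚ) = ((N * ((if y = x then 1 else 0) -
          (if y = S.act S.c x then 1 else 0)) : ℤ) : ℚ) := by
        rw [h4, hv]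
        push_cast
        rfl
      exact_mod_cast h5
    rw [isRelation_iff] at h3
    have h4 : ∏ y, S.val y ^ u y = S.val x ^ N / S.c (S.val x) ^ N := by
      have h5 : ∀ y, S.val y ^ u y = (if y = x then S.val x ^ N else 1) *
          (if y = S.act S.c x then (S.c (S.val x) ^ N)⁻¹ else 1) := by
        intro y
        rw [hu]
        by_cases h6 : y = x
        · rw [if_pos h6, if_neg (fun h7 => hne (h6.symm.trans h7)), if_pos h6,
            if_neg (fun h7 => hne (h6.symm.trans h7)), h6]
          simp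
        · by_cases h7 : y = S.act S.c x
          · rw [if_neg h6, if_pos h7, if_neg h6, if_pos h7, h7]
            simp [val_act]
          · rw [if_neg h6, if_neg h7, if_neg h6, if_neg h7]
            simp
      rw [Finset.prod_congr rfl (fun y _ => h5 y), Finset.prod_mul_distrib,
        Finset.prod_ite_eq' Finset.univ x, Finset.prod_ite_eq' Finset.univ (S.act S.c x),
        if_pos (Finset.mem_univ _), if_pos (Finset.mem_univ _), div_eq_mul_inv]
    rw [h4] at h3
    apply hx N hN
    have h5 : S.c (S.val x) ≠ 0 := by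
      rw [← val_act]
      exact S.val_ne _
    exact (div_eq_one_iff_eq (pow_ne_zero _ h5)).1 h3
  have h2 := Submodule.finrank_lt_finrank_of_lt h1
  rw [← oddRank_eq] at h2
  have h3 := S.two_mul_finrank_oddFun
  omega

/-- The bound in terms of the number of letters. -/
theorem two_mul_card_le [FiniteDimensional ℚ E]
    (h : ∃ x : S.Letters, ∀ n : ℕ, 0 < n → S.val x ^ n ≠ S.c (S.val x) ^ n) :
    2 * Nat.card (E ≃ₐ[ℚ] E) ≤
      2 ^ (Fintype.card S.Letters / 2) * Nat.card {g : E ≃ₐ[ℚ] E // S.IsFree g} := by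
  have h1 := S.card_le_isFree
  have h2 := S.oddRank_lt h
  have h3 : 2 ^ (S.oddRank + 1) ≤ 2 ^ (Fintype.card S.Letters / 2) :=
    Nat.pow_le_pow_right two_pos (by omega)
  calc 2 * Nat.card (E ≃ₐ[ℚ] E) ≤ 2 * (2 ^ S.oddRank * Nat.card {g : E ≃ₐ[ℚ] E // S.IsFree g}) :=
        Nat.mul_le_mul_left _ h1
    _ = 2 ^ (S.oddRank + 1) * Nat.card {g : E ≃ₐ[ℚ] E // S.IsFree g} := by rw [pow_succ]; ring
    _ ≤ _ := Nat.mul_le_mul_right _ h3

/-- The bound in terms of the number of letters. -/
theorem two_mul_card_le' [FiniteDimensional ℚ E]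
    (h : ∃ x : S.Letters, ∀ n : ℕ, 0 < n → S.val x ^ n ≠ S.c (S.val x) ^ n) :
    2 * Nat.card (E ≃ₐ[ℚ] E) ≤
      2 ^ (Nat.card S.Letters / 2) * Nat.card {g : E ≃ₐ[ℚ] E // S.IsFree g} := by
  rw [Nat.card_eq_fintype_card (α := S.Letters)]
  exact S.two_mul_card_le h

/-- The odd part of a relation. -/
lemma odd_of_pow {v : S.Letters → ℕ} {t : ℕ} (ht : 0 < t)
    (h : S.c ((∏ x, S.val x ^ v x) ^ t) = (∏ x, S.val x ^ v x) ^ t) :
    S.IsOddRelation (fun x => (v x : ℚ) - v (S.act S.c x)) := by
  refine ⟨fun x => ?_, t, fun x => t * ((v x : ℤ) - v (S.act S.c x)), ht, fun x => ?_, ?_⟩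
  · beta_reduce
    rw [act_c_c]; ring
  · push_cast
    ring
  · rw [isRelation_iff]
    have h1 : ∏ x, S.val x ^ ((t : ℤ) * ((v x : ℤ) - v (S.act S.c x))) =
        (∏ x, S.val x ^ v x) ^ t / (∏ x, S.val x ^ v (S.act S.c x)) ^ t := by
      rw [← Finset.prod_pow, ← Finset.prod_pow, ← Finset.prod_div_distrib]
      refine Finset.prod_congr rfl (fun x _ => ?_)
      rw [← pow_mul, ← pow_mul, mul_sub, zpow_sub₀ (S.val_ne x)]
      congr 1
      · rw [mul_comm (v x), ← zpow_natCast]
        push_cast
        rfl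
      · rw [mul_comm (v (S.act S.c x)), ← zpow_natCast]
        push_cast
        rfl
    have h2 : ∏ x, S.val x ^ v (S.act S.c x) = S.c (∏ x, S.val x ^ v x) := by
      rw [map_prod]
      refine Fintype.prod_equiv (S.actEquiv S.c) _ _ (fun x => ?_)
      rw [map_pow]
      change S.val x ^ v (S.act S.c x) = (S.c (S.val (S.act S.c x))) ^ v (S.act S.c x)
      rw [← val_act, act_c_c]
    rw [h1, h2, ← map_pow, h, div_self]
    exact pow_ne_zero _ (Finset.prod_ne_zero_iff.2 (fun x _ => pow_ne_zero _ (S.val_ne x)))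

/-- The sum of the conjugates of an odd relation, against an invariant function. -/
lemma sum_eq_zero [FiniteDimensional ℚ E] {g : E ≃ₐ[ℚ] E} (hg : S.IsFree g)
    {u : S.Letters → ℚ} (hu : S.IsOddRelation u) {f : S.Letters → ℚ}
    (hf : ∀ x, f (S.act g x) = f x) : ∑ x, f x * u x = 0 := by
  have hn : 0 < orderOf g := orderOf_pos g
  obtain ⟨s, hs⟩ : ∃ s : S.Letters → ℚ, s = ∑ k ∈ Finset.range (orderOf g),
    fun x => u (S.act (g ^ k) x) := ⟨_, rfl⟩
  have hsx : ∀ x, s x = ∑ k ∈ Finset.range (orderOf g), u (S.act (g ^ k) x) := by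
    intro x
    rw [hs, Finset.sum_apply]
  have hs1 : S.IsOddRelation s := by
    rw [hs]
    exact Submodule.sum_mem S.oddSpace (fun k _ => IsOddRelation.act S hu (g ^ k))
  have hs2 : ∀ x, s (S.act g x) = s x := by
    intro x
    rw [hsx, hsx]
    have h1 : ∀ k, u (S.act (g ^ k) (S.act g x)) = u (S.act (g ^ (k + 1)) x) := by
      intro k
      rw [← act_mul, ← pow_succ]
    rw [Finset.sum_congr rfl (fun k _ => h1 k)]
    have h2 := Finset.sum_range_succ (fun k => u (S.act (g ^ k) x)) (orderOf g)
    rw [Finset.sum_range_succ', pow_orderOf_eq_one, pow_zero] at h2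
    linarith
  have hs0 : s = 0 := hg s hs1 hs2
  have hfk : ∀ (k : ℕ) x, f (S.act (g ^ k) x) = f x := by
    intro k
    induction k with
    | zero => intro x; rw [pow_zero, act_one]
    | succ k ih => intro x; rw [pow_succ, act_mul, ih, hf]
  have h1 : ∑ x, f x * s x = orderOf g * ∑ x, f x * u x := by
    have h2 : ∀ x, f x * s x = ∑ k ∈ Finset.range (orderOf g), f x * u (S.act (g ^ k) x) := by
      intro x
      rw [hsx, Finset.mul_sum]
    rw [Finset.sum_congr rfl (fun x _ => h2 x), Finset.sum_comm]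
    have h3 : ∀ k ∈ Finset.range (orderOf g), ∑ x, f x * u (S.act (g ^ k) x) =
        ∑ x, f x * u x := by
      intro k _
      refine Fintype.sum_equiv (S.actEquiv (g ^ k)) _ _ (fun x => ?_)
      change f x * u (S.act (g ^ k) x) = f (S.act (g ^ k) x) * u (S.act (g ^ k) x)
      rw [hfk]
    rw [Finset.sum_congr rfl h3, Finset.sum_const, Finset.card_range, nsmul_eq_mul]
  have h2 : ∑ x, f x * s x = 0 := by
    rw [hs0]
    simp
  rw [h2] at h1
  have h3 : (orderOf g : ℚ) ≠ 0 := by exact_mod_cast hn.ne'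
  rcases mul_eq_zero.1 h1.symm with h | h
  · exact absurd h h3
  · exact h

end WeilSystem

end Pool.Agent.L0h13.DN
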