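import Mathlib

/-!
# Weil numbers and the multiplicative relations between them: definitions
-/

open Polynomial

namespace Pool.Agent.L0h13.DN

/-- Finitely many squarefree polynomials `P s` with rational coefficients which split in the field
`E` (a number field), and an automorphism `c` of `E` such that `a * c a = q ^ w` for all roots `a` of
`P s`, `w = w s` being the weight: the `a` are Weil numbers of weight `w`, and `c` is the complex
conjugation. -/
structure WeilSystem (ι : Type) (E : Type) [Field E] [CharZero E] where
  q : ℕ
  P : ι → ℚ[X]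
  w : ι → ℕ
  c : E ≃ₐ[ℚ] E
  one_lt : 1 < q
  squarefree : ∀ s, Squarefree (P s)
  splits : ∀ s, ((P s).map (algebraMap ℚ E)).Splits
  weil : ∀ s a, aeval a (P s) = 0 → a * c a = (q : E) ^ w s

variable {ι : Type} {E : Type} [Field E] [CharZero E] (S : WeilSystem ι E)

namespace WeilSystem

/-- The letters: the pairs of an index `s` and a root of `P s`. -/
def Letters : Type := Σ s : ι, (S.P s).rootSet E

/-- The action of the automorphisms of `E` on the letters. -/
def act (g : E ≃ₐ[ℚ] E) (x : S.Letters) : S.Letters :=
  ⟨x.1, g x.2.1, by
    have h := x.2.2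
    rw [mem_rootSet] at h ⊢
    exact ⟨h.1, by rw [← AlgEquiv.coe_toAlgHom, aeval_algHom_apply, h.2, map_zero]⟩⟩

/-- The Weil number of a letter. -/
def val (x : S.Letters) : E := x.2.1

/-- The weight function `u` on the letters is a multiplicative relation: the product of the
`a ^ u (s, a)` is one. -/
def IsRelation [Fintype ι] (u : S.Letters → ℤ) : Prop :=
  ∏ s : ι, ∏ a : (S.P s).rootSet E, (a : E) ^ u ⟨s, a⟩ = 1

/-- An odd relation with rational coefficients: `v (c x) = - v x` for all letters `x`, and some
positive multiple of `v` is an (integral) multiplicative relation. -/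
def IsOddRelation [Fintype ι] (v : S.Letters → ℚ) : Prop :=
  (∀ x, v (S.act S.c x) = -v x) ∧
    ∃ (N : ℕ) (u : S.Letters → ℤ), 0 < N ∧ (∀ x, (u x : ℚ) = N * v x) ∧ S.IsRelation u

/-- The automorphism `g` has no nonzero invariants in the space of the odd relations. -/
def IsFree [Fintype ι] (g : E ≃ₐ[ℚ] E) : Prop :=
  ∀ v, S.IsOddRelation v → (∀ x, v (S.act g x) = v x) → v = 0

/-- The rank of the group of the odd relations. -/
noncomputable def oddRank [Fintype ι] : ℕ :=
  Module.finrank ℚ (Submodule.span ℚ {v | S.IsOddRelation v})

end WeilSystem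

end Pool.Agent.L0h13.DN
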