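import Pool.Agent.L0h13.DN.Ar
import Pool.Agent.R908.RelDefs

/-!
# Automorphisms without invariant odd relations, and balanced relations
-/

open Polynomial

namespace Pool.Agent.L0h13.DN

open Pool.Agent.R908

lemma prod_map_pow' {α M : Type*} [CommMonoid M] (f : α → M) (t : ℕ) (l : List α) :
    (l.map (fun x => f x ^ t)).prod = (l.map f).prod ^ t := by
  induction l with
  | nil => simp
  | cons a l ih => rw [List.map_cons, List.map_cons, List.prod_cons, List.prod_cons, ih, mul_pow]

lemma count_map_eq {α β : Type*} [BEq β] [LawfulBEq β] [DecidableEq β] (A : α → β) (b : β)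
    (l : List α) :
    (((l.map A).count b : ℕ) : ℚ) = (l.map (fun y => if A y = b then (1 : ℚ) else 0)).sum := by
  induction l with
  | nil => simp
  | cons a l ih =>
    rw [List.map_cons, List.map_cons, List.sum_cons, List.count_cons, ← ih]
    by_cases h : A a = b
    · simp [h, add_comm]
    · simp [h]

lemma sum_map_count {α : Type*} [Fintype α] [DecidableEq α] (f : α → ℚ) (l : List α) :
    (l.map f).sum = ∑ y, f y * (l.count y : ℚ) := by
  induction l with
  | nil => simp
  | cons a l ih =>
    rw [List.map_cons, List.sum_cons, ih]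
    have h1 : ∀ y, f y * ((a :: l).count y : ℚ) =
        f y * (l.count y : ℚ) + (if y = a then f y else 0) := by
      intro y
      rw [List.count_cons]
      by_cases h : y = a
      · subst h
        simp [mul_add]
      · have h' : ¬ a = y := fun h' => h h'.symm
        simp [h, h']
    rw [Finset.sum_congr rfl (fun y _ => h1 y), Finset.sum_add_distrib,
      Finset.sum_ite_eq' Finset.univ a, if_pos (Finset.mem_univ _), add_comm]

lemma prod_map_count {α : Type*} [Fintype α] [DecidableEq α] {M : Type*} [CommMonoid M]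
    (f : α → M) (l : List α) : (l.map f).prod = ∏ y, f y ^ l.count y := by
  induction l with
  | nil => simp
  | cons a l ih =>
    rw [List.map_cons, List.prod_cons, ih]
    have h1 : ∀ y, f y ^ (a :: l).count y = f y ^ l.count y * (if y = a then f y else 1) := by
      intro y
      rw [List.count_cons]
      by_cases h : y = a
      · subst h
        simp [pow_succ]
      · have h' : ¬ a = y := fun h' => h h'.symm
        simp [h, h']
    rw [Finset.prod_congr rfl (fun y _ => h1 y), Finset.prod_mul_distrib,
      Finset.prod_ite_eq' Finset.univ a, if_pos (Finset.mem_univ _), mul_comm]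

variable {ι : Type} {E : Type} [Field E] [CharZero E] (S : WeilSystem ι E) [Fintype ι]
  [FiniteDimensional ℚ E] {K : Type*} [Field K] {L : Type*} [Field L] [CharZero L] [Algebra K L]

omit [Fintype ι] [FiniteDimensional ℚ E] in
lemma exists_letter (φ : E →+* L) {s : ι} {b : L} (hb : aeval b (S.P s) = 0) :
    ∃ y : S.Letters, y.1 = s ∧ φ (S.val y) = b := by
  have h0 : S.P s ≠ 0 := (S.squarefree s).ne_zero
  have h1 := (S.splits s).image_rootSet (φ.toRatAlgHom)
  have h2 : b ∈ (S.P s).rootSet L := (mem_rootSet_of_ne h0).2 hb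
  rw [← h1] at h2
  obtain ⟨a, ha, hab⟩ := h2
  exact ⟨⟨s, a, ha⟩, rfl, hab⟩

omit [Fintype ι] [FiniteDimensional ℚ E] in
lemma exists_letters (φ : E →+* L) (l : List (ι × L)) (hl : ∀ x ∈ l, aeval x.2 (S.P x.1) = 0) :
    ∃ l' : List S.Letters, l = l'.map (fun y => (y.1, φ (S.val y))) := by
  induction l with
  | nil => exact ⟨[], rfl⟩
  | cons x l ih =>
    obtain ⟨l', hl'⟩ := ih (fun y hy => hl y (List.mem_cons_of_mem _ hy))
    obtain ⟨y, h1, h2⟩ := exists_letter S φ (hl x List.mem_cons_self)
    refine ⟨y :: l', ?_⟩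
    rw [List.map_cons, ← hl', h1, h2]

/-- **The relations are balanced.** -/
theorem balanced_of_isFree {p e : ℕ} (he : 0 < e) (φ : E →+* L) {g : E ≃ₐ[ℚ] E} {σ : L ≃ₐ[K] L}
    (hσ : ∀ a, σ (φ a) = φ (g a)) (hg : S.IsFree g) (l : List (ι × L))
    (hl : ∀ x ∈ l, aeval x.2 (S.P x.1) = 0) (hrel : FrobRel p (l.map (fun x => (x.2, e)))) :
    (l.map (fun x => (x.1, minpoly K x.2))).Perm
      (l.map (fun x => (x.1, minpoly K ((S.q : L) ^ S.w x.1 / x.2)))) := by
  classical
  obtain ⟨l', rfl⟩ := exists_letters S φ l hl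
  rcases List.eq_nil_or_concat l' with rfl | ⟨l₀, y₀, hl₀⟩
  · exact List.Perm.refl _
  -- the relation
  obtain ⟨N, J, hN, hd, hprod⟩ := hrel
  obtain ⟨t, ht, htN⟩ : ∃ t, 0 < t ∧ N / e = t := by
    have h1 : e ∣ N := hd (φ (S.val y₀), e) (by
      rw [List.map_map, hl₀]
      apply List.mem_map.2
      exact ⟨y₀, by simp, rfl⟩)
    exact ⟨N / e, Nat.div_pos (Nat.le_of_dvd hN h1) he, rfl⟩
  have h1 : ((l'.map (fun y => φ (S.val y))).prod) ^ t = (p : L) ^ J := by
    rw [← hprod, List.map_map, List.map_map, ← prod_map_pow']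
    congr 1
    apply List.map_congr_left
    intro y _
    simp only [Function.comp_apply, htN]
  have h2 : (l'.map (fun y => φ (S.val y))).prod = φ (∏ y, S.val y ^ l'.count y) := by
    rw [prod_map_count, map_prod]
    exact Finset.prod_congr rfl (fun y _ => (map_pow φ _ _).symm)
  rw [h2, ← map_pow] at h1
  have h3 : (∏ y, S.val y ^ l'.count y) ^ t = ((p ^ J : ℕ) : E) := by
    apply φ.injective
    rw [h1, map_natCast]
    push_cast
    rfl
  have hodd := S.odd_of_pow (v := fun y => l'.count y) ht (by
    change S.c ((∏ y, S.val y ^ l'.count y) ^ t) = (∏ y, S.val y ^ l'.count y) ^ t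
    rw [h3, map_natCast])
  -- the counts
  set A : S.Letters → ι × K[X] := fun y => (y.1, minpoly K (φ (S.val y))) with hA
  have e1 : (l'.map (fun y => (y.1, φ (S.val y)))).map (fun x => (x.1, minpoly K x.2)) =
      l'.map A := by
    rw [List.map_map]
    rfl
  have e2 : (l'.map (fun y => (y.1, φ (S.val y)))).map
      (fun x => (x.1, minpoly K ((S.q : L) ^ S.w x.1 / x.2))) =
      l'.map (fun y => A (S.act S.c y)) := by
    rw [List.map_map]
    apply List.map_congr_left
    intro y _
    simp only [hA, Function.comp_apply, WeilSystem.fst_act, WeilSystem.val_c]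
    rw [map_div₀, map_pow, map_natCast]
  rw [e1, e2, List.perm_iff_count]
  intro b
  have h4 : ((l'.map A).count b : ℚ) = ((l'.map (fun y => A (S.act S.c y))).count b : ℚ) := by
    rw [count_map_eq, count_map_eq, sum_map_count, sum_map_count]
    have h5 : ∑ y, (if A (S.act S.c y) = b then (1 : ℚ) else 0) * (l'.count y : ℚ) =
        ∑ y, (if A y = b then (1 : ℚ) else 0) * (l'.count (S.act S.c y) : ℚ) := by
      refine Fintype.sum_equiv (S.actEquiv S.c) _ _ (fun y => ?_)
      change _ = (if A (S.act S.c y) = b then (1 : ℚ) else 0) *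
        (l'.count (S.act S.c (S.act S.c y)) : ℚ)
      rw [WeilSystem.act_c_c]
    rw [h5, ← sub_eq_zero, ← Finset.sum_sub_distrib]
    have h6 := S.sum_eq_zero hg hodd (f := fun y => if A y = b then (1 : ℚ) else 0) (by
      intro y
      have h7 : A (S.act g y) = A y := by
        simp only [hA, WeilSystem.fst_act, WeilSystem.val_act]
        rw [← hσ, minpoly.algEquiv_eq]
      beta_reduce
      rw [h7])
    refine (Finset.sum_congr rfl (fun y _ => ?_)).trans h6
    beta_reduce
    rw [mul_sub]
  exact_mod_cast h4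

end Pool.Agent.L0h13.DN
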