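import Mathlib

/-!
# Operators commuting with an operator with simple spectrum
-/

open Polynomial TensorProduct Module

namespace Pool.Agent.L0h13.DN

variable {K V : Type*} [Field K] [CharZero K] [AddCommGroup V] [Module K V]
  [FiniteDimensional K V]

/-- An operator which commutes with an operator `F` whose characteristic polynomial is squarefree is
a polynomial in `F`. -/
theorem exists_aeval_of_comm {F φ : Module.End K V} (hsq : Squarefree F.charpoly)
    (hφ : φ ∘ₗ F = F ∘ₗ φ) : ∃ Q : K[X], φ = aeval F Q := by
  classical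
  let L := AlgebraicClosure K
  let FL : Module.End L (L ⊗[K] V) := F.baseChange L
  let φL : Module.End L (L ⊗[K] V) := φ.baseChange L
  have hcomm : ∀ x, φL (FL x) = FL (φL x) := by
    intro x
    change (φ.baseChange L) ((F.baseChange L) x) = (F.baseChange L) ((φ.baseChange L) x)
    rw [← LinearMap.comp_apply, ← LinearMap.comp_apply, ← LinearMap.baseChange_comp,
      ← LinearMap.baseChange_comp, hφ]
  have hchar : FL.charpoly = F.charpoly.map (algebraMap K L) := LinearMap.charpoly_baseChange F L
  have hsep : FL.charpoly.Separable := by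
    rw [hchar]
    exact (PerfectField.separable_iff_squarefree.2 hsq).map
  have hmonic : FL.charpoly.Monic := FL.charpoly_monic
  set R : Finset L := FL.charpoly.roots.toFinset with hR
  have hcard : Fintype.card R = Module.finrank L (L ⊗[K] V) := by
    rw [Fintype.card_coe, hR, Multiset.toFinset_card_of_nodup (nodup_roots hsep),
      ← (IsAlgClosed.splits FL.charpoly).natDegree_eq_card_roots, LinearMap.charpoly_natDegree]
  have hev : ∀ a : R, ∃ x, FL.HasEigenvector (a : L) x := by
    intro a
    have h0 := (Finset.ext_iff.1 hR (a : L)).1 a.2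
    have h1 : FL.charpoly.IsRoot (a : L) := by
      rw [Multiset.mem_toFinset, mem_roots hmonic.ne_zero] at h0
      exact h0
    exact ((Module.End.hasEigenvalue_iff_isRoot_charpoly FL (a : L)).2 h1).exists_hasEigenvector
  choose x hx using hev
  have hli : LinearIndependent L x := by
    have h1 := Module.End.eigenvectors_linearIndependent FL (R : Set L) x hx
    exact h1
  have hspan : ⊤ ≤ Submodule.span L (Set.range x) :=
    (hli.span_eq_top_of_card_eq_finrank' hcard).ge
  obtain ⟨b, hb⟩ : ∃ b : Basis R L (L ⊗[K] V), ∀ a, b a = x a :=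
    ⟨Basis.mk hli hspan, fun a => Basis.mk_apply hli hspan a⟩
  have hFb : ∀ a, FL (b a) = (a : L) • b a := fun a => by
    rw [hb]; exact (hx a).apply_eq_smul
  have hrepr : ∀ y a, b.repr (FL y) a = (a : L) * b.repr y a := by
    intro y a
    have h1 : (b.coord a) ∘ₗ FL = (a : L) • b.coord a := by
      apply b.ext
      intro c
      rw [LinearMap.comp_apply, hFb, map_smul, LinearMap.smul_apply, Basis.coord_apply,
        Basis.repr_self, smul_eq_mul, smul_eq_mul]
      by_cases hc : c = a
      · rw [hc]
      · rw [Finsupp.single_eq_of_ne (Ne.symm hc), mul_zero, mul_zero]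
    have h2 := congrArg (fun f => f y) h1
    exact h2
  have hφb : ∀ a, ∃ m : L, φL (b a) = m • b a := by
    intro a
    refine ⟨b.repr (φL (b a)) a, ?_⟩
    apply b.repr.injective
    ext c
    rw [map_smul, Finsupp.smul_apply, Basis.repr_self, smul_eq_mul]
    by_cases hc : c = a
    · rw [hc, Finsupp.single_eq_same, mul_one]
    · rw [Finsupp.single_eq_of_ne hc, mul_zero]
      have h1 := hrepr (φL (b a)) c
      rw [← hcomm, hFb, map_smul, map_smul, Finsupp.smul_apply, smul_eq_mul] at h1
      have h2 : ((a : L) - (c : L)) * b.repr (φL (b a)) c = 0 := by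
        rw [sub_mul, h1, sub_self]
      rcases mul_eq_zero.1 h2 with h | h
      · exact absurd (Subtype.ext (sub_eq_zero.1 h)).symm hc
      · exact h
  choose m hm using hφb
  set Q : L[X] := Lagrange.interpolate Finset.univ (fun a : R => (a : L)) m with hQ
  have hQe : ∀ a : R, Q.eval (a : L) = m a := fun a =>
    Lagrange.eval_interpolate_at_node m (fun _ _ _ _ h => Subtype.ext h) (Finset.mem_univ a)
  have hφQ : φL = aeval FL Q := by
    apply b.ext
    intro a
    have h1 : FL.HasEigenvector (a : L) (b a) := by rw [hb]; exact hx a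
    rw [hm, Module.End.aeval_apply_of_hasEigenvector h1, hQe]
  -- descent
  obtain ⟨lam, hlam⟩ : ∃ lam : L →ₗ[K] K, lam 1 = 1 := by
    obtain ⟨f, hf⟩ := (Algebra.linearMap K L).exists_leftInverse_of_injective
      (LinearMap.ker_eq_bot.2 (algebraMap K L).injective)
    refine ⟨f, ?_⟩
    have h1 := congrArg (fun g => g 1) hf
    simp only [LinearMap.comp_apply, Algebra.linearMap_apply, map_one, LinearMap.id_apply] at h1
    exact h1
  let ev : L ⊗[K] V →ₗ[K] V := TensorProduct.lift
    ((LinearMap.lsmul K V).comp lam)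
  have hevt : ∀ (l : L) (v : V), ev (l ⊗ₜ[K] v) = lam l • v := fun l v => rfl
  refine ⟨∑ k ∈ Finset.range (Q.natDegree + 1), C (lam (Q.coeff k)) * X ^ k, ?_⟩
  apply LinearMap.ext
  intro v
  have h1 : φ v = ev (φL (1 ⊗ₜ[K] v)) := by
    change φ v = ev ((φ.baseChange L) (1 ⊗ₜ[K] v))
    rw [LinearMap.baseChange_tmul, hevt, hlam, one_smul]
  have hpow : ∀ k : ℕ, (FL ^ k) ((1 : L) ⊗ₜ[K] v) = (1 : L) ⊗ₜ[K] ((F ^ k) v) := by
    intro k
    induction k with
    | zero => rfl
    | succ k ih =>
      rw [pow_succ', Module.End.mul_apply, ih, pow_succ', Module.End.mul_apply]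
      exact LinearMap.baseChange_tmul _ _ _
  rw [h1, hφQ, aeval_eq_sum_range, LinearMap.sum_apply, map_sum, map_sum, LinearMap.sum_apply]
  refine Finset.sum_congr rfl (fun k _ => ?_)
  rw [LinearMap.smul_apply, hpow, TensorProduct.smul_tmul', smul_eq_mul, mul_one, hevt, map_mul,
    aeval_C, map_pow, aeval_X, Module.End.mul_apply, Module.algebraMap_end_apply]

end Pool.Agent.L0h13.DN
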