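import Pool.Agent.R908.TAbDefs
import Pool.Agent.R908.RelDefs
import Pool.Agent.H447R3.DegDefs
import Pool.Agent.H914R2.KDefs
import Pool.Agent.L0h13.DN.ArDefs

/-!
# Varieties over finite fields whose Frobenius endomorphisms have few relations: definitions
-/

open CategoryTheory AlgebraicGeometry Polynomial

universe u v

namespace Pool.Agent.L0h13.DN

open Pool.Agent.H914 Pool.Agent.H914.VarClass Pool.Agent.H914.VarClass.Obj
  Pool.Agent.H914.WeilCohomology Pool.Agent.W534 Pool.Agent.R908

section Lin

variable {K : Type*} [Field K] {V : Type*} [AddCommGroup V] [Module K V]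

/-- The polynomial `f(F)` is zero on the subspace `N`. -/
def KillsOn (F : Module.End K V) (N : Submodule K V) (f : K[X]) : Prop :=
  ∀ x ∈ N, aeval F f x = 0

/-- The subspace `N` is stable under `F`, and the characteristic polynomial of `F` on `N` is
`f`. -/
def HasCharpolyOn [FiniteDimensional K V] (F : Module.End K V) (N : Submodule K V) (f : K[X]) : Prop :=
  ∃ h : ∀ x ∈ N, F x ∈ N, (F.restrict h).charpoly = f

end Lin

variable {k : Type u} [Field k] {𝒱 : VarClass k} {ops : CycleOps 𝒱}
  {W : WeilCohomology.{u, v} ops} {p : ℕ}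

/-- There is a divisor `D` with the hard Lefschetz property the class of which is multiplied by `q`
by Frobenius. -/
def HasPolarization (Φ : FrobSystem W p) (X : 𝒱.Obj) : Prop :=
  ∃ D, X.IsCyc 1 D ∧ IsScaled (frobAll Φ X) (p ^ Φ.e X) (W.cl X D) ∧ HardLefschetz W X D

/-- The rational polynomial `f` is zero on Frobenius on `H^i(X)`, where `i ≤ dim X`, and for `j ≠ i`
Frobenius has no eigenvalues on `H^j(X)` which are roots of `f`. Furthermore, `f` is the
characteristic polynomial of Frobenius on `H^i(X)`, or the commutant of Frobenius on `H^i(X)` is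
spanned by algebraic correspondences. (In the applications `f` is squarefree; so in the first case
Frobenius has a simple spectrum on `H^i(X)`.) -/
structure IsPart (Φ : FrobSystem W p) (X : 𝒱.Obj) (i : ℕ) (f : ℚ[X]) : Prop where
  le : i ≤ X.dim
  polarization : HasPolarization Φ X
  kills : KillsOn (frobAll Φ X) (W.gr X i) (f.map (algebraMap ℚ W.K))
  separated : ∀ j, j ≠ i → ∃ h : W.K[X], IsCoprime (f.map (algebraMap ℚ W.K)) h ∧
    KillsOn (frobAll Φ X) (W.gr X j) h
  full : HasCharpolyOn (frobAll Φ X) (W.gr X i) (f.map (algebraMap ℚ W.K)) ∨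
    CommutantSpannedOn (frobAll Φ X) (W.gr X i) (cycOps W X)

/-- The pairs `(X s, d s)` of a variety and a degree, with the polynomials of the system `S` (the
weights are the degrees). All Frobenius endomorphisms are relative to the field with `q`
elements. -/
structure IsFamily {ι E : Type} [Field E] [CharZero E] (S : WeilSystem ι E)
    (Φ : FrobSystem W p) (X : ι → 𝒱.Obj) : Prop where
  part : ∀ s, IsPart Φ (X s) (S.w s) (S.P s)
  base : ∀ s, p ^ Φ.e (X s) = S.q

/-- The cohomology of `Y` of degree at most `b` is covered by the pairs `(X s, w s)` of the family: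
either `Y` is an abelian variety and `(Y, 1)` is in the family, or all pairs `(Y, i)` with `i ≤ b` and
`i ≤ dim Y` are in the family, where `b ≤ dim Y`, or the standard conjecture of Lefschetz type holds
for `Y`. -/
def Covered {ι : Type} (W : WeilCohomology.{u, v} ops) (X : ι → 𝒱.Obj) (w : ι → ℕ) (b : ℕ)
    (Y : 𝒱.Obj) : Prop :=
  ((∃ m, IsAbelianLike W Y m) ∧ ∃ s, X s = Y ∧ w s = 1) ∨
    ((∀ i ≤ b, i ≤ Y.dim → ∃ s, X s = Y ∧ w s = i) ∧
      (b ≤ Y.dim ∨ ∃ D, Y.IsCyc 1 D ∧ HardLefschetz W Y D ∧ LefschetzB W Y D))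

/-- Homological and numerical equivalence coincide for cycles of codimension at most `b / 2` on all
products of varieties covered by the family up to degree `b`, for all `b`. -/
def DUpToDegree {ι : Type} (W : WeilCohomology.{u, v} ops) (X : ι → 𝒱.Obj) (w : ι → ℕ) : Prop :=
  ∀ b Z, IsProductOf {Y | Covered W X w b Y} Z → ∀ j, 2 * j ≤ b →
    Pool.Agent.H447.HomEqNumIn W Z j

end Pool.Agent.L0h13.DN
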