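import Pool.Agent.L0h13.DN.Piece

/-!
# The conjecture D in low codimension for products of varieties over finite fields
-/

open CategoryTheory AlgebraicGeometry TensorProduct Polynomial

universe u v

namespace Pool.Agent.L0h13.DN

open Pool.Agent.H914 Pool.Agent.H914.VarClass Pool.Agent.H914.VarClass.Obj
  Pool.Agent.H914.WeilCohomology Pool.Agent.H281R3.HT Pool.Agent.W534 Pool.Agent.R908

variable {k : Type u} [Field k] {𝒱 : VarClass k} {ops : CycleOps 𝒱}

section Fix

variable {W : WeilCohomology.{u, v} ops} {X Y Z : 𝒱.Obj}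

/-- The operator is the identity in degrees at most `b`. -/
def Fixes (W : WeilCohomology.{u, v} ops) (X : 𝒱.Obj) (b : ℕ) (E : W.H X →ₗ[W.K] W.H X) : Prop :=
  ∀ i ≤ b, ∀ x ∈ W.gr X i, E x = x

lemma Fixes.ext {b : ℕ} {E : W.H X →ₗ[W.K] W.H X} {E' : W.H Y →ₗ[W.K] W.H Y}
    (h : Fixes W X b E) (h' : Fixes W Y b E') : Fixes W (X.prod Y) b (extHom W E E') := by
  intro i hi x hx
  have key : ∀ z : W.H (X.prod Y), extHom W E E' (proj (W.isInternal (X.prod Y)) i z) =
      proj (W.isInternal (X.prod Y)) i z := by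
    intro z
    refine W.kunneth_induction (p := fun z => extHom W E E'
      (proj (W.isInternal (X.prod Y)) i z) = proj (W.isInternal (X.prod Y)) i z) ?_ ?_ z
    · intro z z' h1 h2
      rw [map_add, map_add, h1, h2]
    · intro l m a ha c hc
      have hmem : W.map (fst X Y) a * W.map (snd X Y) c ∈ W.gr (X.prod Y) (l + m) :=
        W.mul_mem (W.map_mem _ ha) (W.map_mem _ hc)
      by_cases hlm : l + m = i
      · rw [hlm] at hmem
        rw [proj_same _ hmem, extHom_tmul, h l (by omega) a ha, h' m (by omega) c hc]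
      · rw [proj_ne _ hmem hlm, map_zero]
  have h1 := key x
  rwa [proj_same _ hx] at h1

/-- The conjecture D in codimension `j`. -/
theorem homEqNumIn_of_fixes {P : Mot W → Prop} (hP : ∀ B, P B → B.Num) {b : ℕ}
    {E : W.H Z →ₗ[W.K] W.H Z} (hE : E ∈ RetOp W P Z Z) (hfix : Fixes W Z b E) {j : ℕ}
    (hj : 2 * j ≤ b) : Pool.Agent.H447.HomEqNumIn W Z j := by
  intro z hz hnum
  by_cases hjd : j ≤ Z.dim
  · have h3 := numTriv_cl (W := W) hjd hz hnum
    have h4 : W.cl Z z ∈ spanCycles W Z j := Submodule.subset_span ⟨j, rfl, z, hz, rfl⟩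
    have key : ∀ φ ∈ RetOp W P Z Z, φ (W.cl Z z) = 0 := by
      intro φ hφ
      induction hφ using Submodule.span_induction with
      | mem φ hφ =>
        obtain ⟨B, d, d', u, v, hB, hu, hv, rfl⟩ := hφ
        have h5 : B.e (u (W.cl Z z)) = 0 :=
          hP B hB _ _ (KOp.map_span hu h4) (NumTriv.op hu h3)
        rw [LinearMap.comp_apply, LinearMap.comp_apply, h5, map_zero]
      | zero => rfl
      | add x y _ _ hx hy => rw [LinearMap.add_apply, hx, hy, add_zero]
      | smul c x _ hx => rw [LinearMap.smul_apply, hx, smul_zero]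
    rw [← hfix (2 * j) hj _ (W.cl_mem hz)]
    exact key _ hE
  · have h4 := W.cl_mem hz
    rw [W.gr_eq_bot _ _ (by omega), Submodule.mem_bot] at h4
    exact h4

/-- A normalised class of degree one. -/
lemma exists_unit {D : X.Cycles} (hD : X.IsCyc 1 D) (hHL : HardLefschetz W X D)
    (hne : (1 : W.H X) ≠ 0) : ∃ c ∈ spanCycles W X X.dim, W.tr X c = 1 := by
  have h1 : lefP W X D X.dim 1 ∈ spanCycles W X X.dim := by
    have h2 := KOp.map_span (lefP_mem (W := W) hD X.dim) (x := (1 : W.H X)) (j := 0)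
      (Submodule.subset_span ⟨0, rfl, X.V.fundCycle, X.V.fundCycle_mem, (W.cl_fund X)⟩)
    rwa [zero_add] at h2
  have h3 : W.tr X (lefP W X D X.dim 1) ≠ 0 := by
    intro h0
    apply hne
    apply (hHL 0 (Nat.zero_le _)).1 1 (W.one_mem X)
    change lefP W X D X.dim 1 = 0
    apply W.nondeg
    intro b
    refine gr_induction (W.isInternal X) (p := fun b => W.tr X (lefP W X D X.dim 1 * b) = 0)
      ?_ ?_ b
    · intro i b hb
      have h6 := spanCycles_deg h1
      rw [show (2 * ((X.dim : ℕ) : ℤ)) = ((2 * X.dim : ℕ) : ℤ) by push_cast; ring,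
        grZ_natCast] at h6
      by_cases hi : i = 0
      · subst hi
        rw [W.gr_zero X, Submodule.mem_span_singleton] at hb
        obtain ⟨r, rfl⟩ := hb
        rw [mul_smul_comm, mul_one, map_smul, h0, smul_zero]
      · exact W.tr_eq_zero (W.mul_mem h6 hb) (by omega)
    · intro x y hx hy
      rw [mul_add, map_add, hx, hy, add_zero]
  refine ⟨(W.tr X (lefP W X D X.dim 1))⁻¹ • lefP W X D X.dim 1, Submodule.smul_mem _ _ h1, ?_⟩
  rw [map_smul, smul_eq_mul, inv_mul_cancel₀ h3]

/-- The conjecture D in codimension `j` does not change under extension of the coefficients. -/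
lemma homEqNumIn_base {L : Type v} [Field L] [Algebra W.K L] {j : ℕ}
    (h : Pool.Agent.H447.HomEqNumIn (baseW W L) X j) : Pool.Agent.H447.HomEqNumIn W X j :=
  fun z hz hnum => tmul_injective _ (h z hz hnum)

lemma fixes_up {L : Type v} [Field L] [Algebra W.K L] {b : ℕ} {T : W.H X →ₗ[W.K] W.H X}
    (h : Fixes W X b T) : Fixes (baseW W L) X b (upW L T) := by
  intro i hi (x : L ⊗[W.K] W.H X) hx
  have hx' : x ∈ (W.gr X i).baseChange L := hx
  refine base_induction_mod (P := fun x : L ⊗[W.K] W.H X => upW L T x = x) ?_ ?_ ?_ hx'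
  · exact map_zero _
  · intro x y h1 h2
    have h0 : upW L T (x + y : L ⊗[W.K] W.H X) = upW L T x + upW L T y := map_add _ _ _
    rw [h0, h1, h2]
    rfl
  · intro l a ha
    rw [upW_tmul, h i hi a ha]

end Fix

section Roots

variable {W : WeilCohomology.{u, v} ops} {L : Type v} [Field L] [Algebra W.K L] [IsAlgClosed L]

lemma exists_isRoots {P : W.K[X]} (hP : Squarefree P) : ∃ R : Finset L, IsRoots P R := by
  classical
  have hL : CharZero L := charZero_of_injective_algebraMap (algebraMap W.K L).injective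
  have hsep : (P.map (algebraMap W.K L)).Separable :=
    (PerfectField.separable_iff_squarefree.2 hP).map
  have h0 : P.map (algebraMap W.K L) ≠ 0 :=
    (Polynomial.map_ne_zero_iff (algebraMap W.K L).injective).2 hP.ne_zero
  refine ⟨(P.map (algebraMap W.K L)).roots.toFinset, fun a => ?_,
    (P.map (algebraMap W.K L)).leadingCoeff, leadingCoeff_ne_zero.2 h0, ?_⟩
  · rw [Multiset.mem_toFinset, mem_roots h0, IsRoot.def, ← eval_map_algebraMap]
  · have h1 := (IsAlgClosed.splits (P.map (algebraMap W.K L))).eq_prod_roots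
    conv_lhs => rw [h1]
    congr 1
    rw [Finset.prod_eq_multiset_prod, Multiset.toFinset_val,
      Multiset.dedup_eq_self.2 (nodup_roots hsep)]

end Roots

section Final

variable {W : WeilCohomology.{u, v} ops} {p : ℕ} {Φ : FrobSystem W p} {Y : 𝒱.Obj}
  {L : Type v} [Field L] [Algebra W.K L]

/-- The operator is the projector to `H^i`. -/
def IsDelta (W : WeilCohomology.{u, v} ops) (Y : 𝒱.Obj) (i : ℕ) (T : W.H Y →ₗ[W.K] W.H Y) :
    Prop :=
  ∀ j, ∀ x ∈ W.gr Y j, T x = if i = j then x else 0

lemma IsDelta.eq {i : ℕ} {T T' : W.H Y →ₗ[W.K] W.H Y} (h : IsDelta W Y i T)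
    (h' : IsDelta W Y i T') : T = T' := by
  apply gr_ext (W.isInternal Y)
  intro j x hx
  rw [h j x hx, h' j x hx]

lemma IsDelta.up {i : ℕ} {T : W.H Y →ₗ[W.K] W.H Y} (h : IsDelta W Y i T) :
    IsDelta (baseW W L) Y i (upW L T) := by
  intro j (x : L ⊗[W.K] W.H Y) hx
  have hx' : x ∈ (W.gr Y j).baseChange L := hx
  refine base_induction_mod (P := fun x : L ⊗[W.K] W.H Y => upW L T x =
    if i = j then x else 0) ?_ ?_ ?_ hx'
  · have h0 : upW L T (0 : L ⊗[W.K] W.H Y) = 0 := map_zero _
    rw [h0]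
    split_ifs <;> rfl
  · intro x y h1 h2
    have h0 : upW L T (x + y : L ⊗[W.K] W.H Y) = upW L T x + upW L T y := map_add _ _ _
    rw [h0, h1, h2]
    split_ifs
    · rfl
    · exact add_zero _
  · intro l a ha
    rw [upW_tmul, h j a ha]
    split_ifs
    · rfl
    · exact TensorProduct.tmul_zero _ _

lemma fixes_sum {b : ℕ} {T : ℕ → (W.H Y →ₗ[W.K] W.H Y)} (h : ∀ i ≤ b, IsDelta W Y i (T i)) :
    Fixes W Y b (∑ i ∈ Finset.range (b + 1), T i) := by
  intro j hj x hx
  rw [LinearMap.sum_apply, Finset.sum_eq_single j]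
  · rw [h j hj j x hx, if_pos rfl]
  · intro i hi hij
    rw [h i (by rw [Finset.mem_range] at hi; omega) j x hx, if_neg hij]
  · intro h'
    exact absurd (Finset.mem_range.2 (by omega)) h'

/-- The projector to `H^(n + c)`, if the standard conjecture of Lefschetz type holds. -/
lemma exists_delta_up {D : Y.Cycles} (hD : Y.IsCyc 1 D) (hHL : HardLefschetz W Y D)
    (hB : LefschetzB W Y D) {c : ℕ} (hc : c ≤ Y.dim) {π : W.H Y →ₗ[W.K] W.H Y}
    (hπ : IsDelta W Y (Y.dim - c) π) : ∃ u ∈ KOp W Y Y (-(c : ℤ)), ∃ v ∈ KOp W Y Y (c : ℤ),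
      IsDelta W Y (Y.dim + c) (v ∘ₗ π ∘ₗ u) := by
  obtain ⟨Λ, hΛ, hLam⟩ := lefschetzB_iff_rop.1 hB
  have hΛK : Λ ∈ KOp W Y Y (-1) := KOp.ofRop hΛ
  have hLh : IsHom (W.gr Y) 2 (LinearMap.mulLeft W.K (W.cl Y D)) := by
    simpa using rop_opAlg.hom (rop_mulLeft (W := W) hD)
  have hu : (Λ ^ c : Module.End W.K (W.H Y)) ∈ KOp W Y Y (-(c : ℤ)) := by
    rw [← mem_KS_iff] at hΛK ⊢
    exact rop_opAlg.kspan.cast (rop_opAlg.kspan.pow hΛK c) (by ring)
  refine ⟨Λ ^ c, hu, lefP W Y D c, lefP_mem hD c, ?_⟩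
  intro j x hx
  rw [LinearMap.comp_apply, LinearMap.comp_apply]
  by_cases hj : Y.dim + c = j
  · rw [if_pos hj]
    subst hj
    obtain ⟨b, hb, hb'⟩ := (hHL (Y.dim - c) (by omega)).2 x
      (by rw [show 2 * Y.dim - (Y.dim - c) = Y.dim + c by omega]; exact hx)
    rw [show Y.dim - (Y.dim - c) = c by omega] at hb'
    have h1 : (Λ ^ c : Module.End W.K (W.H Y)) x = b := by
      rw [← hb']
      exact lam_pow_L_pow hLh W_hbd hHL hLam hc hb
    have h2 : π b = b := by rw [hπ _ b hb, if_pos rfl]
    rw [h1, h2]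
    exact hb'
  · rw [if_neg hj]
    have h1 := KOp.isHom hu (j : ℤ) x (by rw [grZ_natCast]; exact hx)
    have h2 : π ((Λ ^ c : Module.End W.K (W.H Y)) x) = 0 := by
      by_cases h3 : 2 * c ≤ j
      · rw [show (j : ℤ) + 2 * (-(c : ℤ)) = ((j - 2 * c : ℕ) : ℤ) by omega, grZ_natCast] at h1
        rw [hπ _ _ h1, if_neg (by omega)]
      · have h4 : (Λ ^ c : Module.End W.K (W.H Y)) x = 0 := by
          rw [grZ_of_neg (by omega), Submodule.mem_bot] at h1
          exact h1
        rw [h4, map_zero]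
    rw [h2, map_zero]

/-- **The conjecture D in low codimension, if an automorphism without invariant odd relations is
induced by an automorphism over the coefficient field.** -/
theorem dUpToDegree {ι E : Type} [Field E] [CharZero E] [FiniteDimensional ℚ E] [Fintype ι]
    {S : WeilSystem ι E} {Xf : ι → 𝒱.Obj} (hX : IsFamily S Φ Xf) [IsAlgClosed L] [Normal W.K L]
    (φ : E →+* L) {g : E ≃ₐ[ℚ] E} {σ : L ≃ₐ[W.K] L} (hσ : ∀ a, σ (φ a) = φ (g a))
    (hg : S.IsFree g) : DUpToDegree W Xf S.w := by
  classical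
  have hLz : CharZero L := charZero_of_injective_algebraMap (algebraMap W.K L).injective
  choose π θ δ hπ hpiece using fun s => exists_piece (hX.part s) (S.squarefree s)
  let D : ι → PieceData Φ := fun s => ⟨Xf s, π s, (S.P s).map (algebraMap ℚ W.K),
    ((p : W.K) ^ Φ.e (Xf s)) ^ S.w s, δ s, θ s, hpiece s⟩
  choose R hR using fun s => exists_isRoots (L := L) (sqf_map (W := W) (S.squarefree s))
  have hR' : ∀ s, IsRoots (D s).P (R s) := hR
  have hbal : Balanced D L (∅ : Set 𝒱.Obj) := by
    intro l l' hl hl' hrel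
    obtain rfl : l' = [] := by
      cases l' with
      | nil => rfl
      | cons y l' => exact absurd (hl' y List.mem_cons_self).1 (Set.notMem_empty _)
    rw [List.map_nil, List.append_nil] at hrel
    rcases List.eq_nil_or_concat l with rfl | ⟨l₀, x₀, hl₀⟩
    · exact List.Perm.refl _
    have hx₀ : x₀ ∈ l := by rw [hl₀]; simp
    have hp : 1 < p := by
      by_contra hcon
      have h1 := hX.base x₀.1
      have h2 := S.one_lt
      have h3 : p ^ Φ.e (Xf x₀.1) ≤ 1 := by
        calc p ^ Φ.e (Xf x₀.1) ≤ 1 ^ Φ.e (Xf x₀.1) := Nat.pow_le_pow_left (by omega) _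
          _ = 1 := one_pow _
      omega
    have he : ∀ s, Φ.e (Xf s) = Φ.e (Xf x₀.1) := fun s =>
      Nat.pow_right_injective hp ((hX.base s).trans (hX.base x₀.1).symm)
    have e1 : l.map (fun x => (x.2, Φ.e (D x.1).V)) =
        l.map (fun x => (x.2, Φ.e (Xf x₀.1))) := by
      apply List.map_congr_left
      intro x _
      exact congrArg _ (he x.1)
    rw [e1] at hrel
    have e2 : ∀ s, algebraMap W.K L (D s).c = (S.q : L) ^ S.w s := by
      intro s
      change algebraMap W.K L (((p : W.K) ^ Φ.e (Xf s)) ^ S.w s) = _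
      rw [map_pow, map_pow, map_natCast, ← hX.base s, Nat.cast_pow]
    have h1 := balanced_of_isFree (K := W.K) S (Φ.e_pos (Xf x₀.1)) φ hσ hg l (by
      intro x hx
      have h2 := hl x hx
      change aeval x.2 ((S.P x.1).map (algebraMap ℚ W.K)) = 0 at h2
      rwa [aeval_map_algebraMap] at h2) hrel
    have e3 : l.map (fun x => (x.1, minpoly W.K (algebraMap W.K L (D x.1).c / x.2))) =
        l.map (fun x => (x.1, minpoly W.K ((S.q : L) ^ S.w x.1 / x.2))) := by
      apply List.map_congr_left
      intro x _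
      rw [e2]
    rw [e3]
    exact h1
  have hnum : ∀ B, WCls D hR' ∅ B → B.Num := fun B hB => WCls.num hbal (by
    intro Y hY
    exfalso
    induction hY with
    | base h => exact h
    | prod _ _ h1 _ => exact h1) B hB
  have hret : ∀ s, upW L (π s) ∈ RetOp (baseW W L) (WCls D hR' ∅) (Xf s) (Xf s) := by
    intro s
    rw [IsPiece.sum_ep (hpiece s) (hR s)]
    exact Submodule.sum_mem _ (fun b hb => RetOp.self (B := letD D hR' (s, b)) (WCls.letter hb))
  -- one variety
  have hone : ∀ b Y, Covered W Xf S.w b Y → ∃ T ∈ RetOp (baseW W L) (WCls D hR' ∅) Y Y,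
      Fixes (baseW W L) Y b T := by
    rintro b Y (⟨⟨m, hm⟩, s, hs, hs1⟩ | ⟨hall, hb⟩)
    · subst hs
      refine ⟨LinearMap.id, ?_, fun i _ x _ => rfl⟩
      obtain ⟨π', hπ', hK'⟩ := exists_projs hm
      have hd : π' 1 = π s := by
        apply IsDelta.eq (W := W) (i := 1)
        · intro j x hx; exact hπ' 1 j x hx
        · intro j x hx
          rw [hπ s j x hx, hs1]
      refine id_mem_retOp (W := baseW W L) (isAbelianLike_base hm) (isProjs_base hπ')
        (fun i => upW_mem (hK' i)) WCls.tensor ?_ ?_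
      · obtain ⟨Dv, hDv, -, hHL⟩ := (hX.part s).polarization
        by_cases hne : (1 : W.H (Xf s)) = 0
        · have h1 : upW L (π' 0) = 0 := by
            apply LinearMap.ext
            intro (x : L ⊗[W.K] W.H (Xf s))
            have h2 : (1 : L ⊗[W.K] W.H (Xf s)) = 0 := by
              rw [Algebra.TensorProduct.one_def, hne, TensorProduct.tmul_zero]
            have h3 : x = 0 := by rw [← one_mul x, h2, zero_mul]
            rw [h3]
            exact (map_zero (upW L (π' 0))).trans (map_zero _).symm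
          rw [h1]
          exact Submodule.zero_mem _
        · obtain ⟨c, hc, hc1⟩ := exists_unit hDv hHL hne
          have hc' : ((1 : L) ⊗ₜ[W.K] c : (baseW W L).H (Xf s)) ∈
              spanCycles (baseW W L) (Xf s) (Xf s).dim := one_tmul_span hc
          have hc1' : (baseW W L).tr (Xf s) ((1 : L) ⊗ₜ[W.K] c : (baseW W L).H (Xf s)) = 1 := by
            change formBase L (W.tr (Xf s)) ((1 : L) ⊗ₜ[W.K] c) = 1
            rw [formBase_tmul, hc1, map_one, mul_one]
          have hpr := isProjs_base (L := L) hπ'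
          have hid : upW L (π' 0) ∘ₗ upW L (π' 0) = upW L (π' 0) := by
            apply gr_ext ((baseW W L).isInternal (Xf s))
            intro j x hx
            rw [LinearMap.comp_apply, hpr 0 j x hx]
            split_ifs with h
            · rw [hpr 0 j x hx, if_pos h]
            · exact map_zero _
          refine RetOp.self (B := Mot.mk (Xf s) (upW L (π' 0)) (upW_mem (hK' 0)) hid)
            (WCls.alg ⟨1, fun _ => (1 : L) ⊗ₜ[W.K] c, fun _ => 1, fun _ => (Xf s).dim,
              fun _ => hc', fun x => ?_⟩)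
          rw [Fin.sum_univ_one]
          exact projs_zero_alg hpr hc' hc1' x
      · rw [hd]
        exact hret s
    · have hdel : ∀ i ≤ b, ∃ T ∈ RetOp (baseW W L) (WCls D hR' ∅) Y Y,
          IsDelta (baseW W L) Y i T := by
        intro i hi
        by_cases hiY : i ≤ Y.dim
        · obtain ⟨s, hs, hsi⟩ := hall i hi hiY
          subst hs
          refine ⟨upW L (π s), hret s, IsDelta.up ?_⟩
          intro j x hx
          rw [hπ s j x hx, hsi]
        · rcases hb with hb | ⟨Dv, hDv, hHL, hB⟩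
          · omega
          by_cases hi2 : i ≤ 2 * Y.dim
          · obtain ⟨c, rfl⟩ : ∃ c, i = Y.dim + c := ⟨i - Y.dim, by omega⟩
            obtain ⟨s, hs, hsi⟩ := hall (Y.dim - c) (by omega) (by omega)
            subst hs
            have hπs : IsDelta W (Xf s) ((Xf s).dim - c) (π s) := by
              intro j x hx
              rw [hπ s j x hx, hsi]
            obtain ⟨u, hu, v, hv, huv⟩ := exists_delta_up hDv hHL hB (by omega) hπs
            refine ⟨upW L v ∘ₗ upW L (π s) ∘ₗ upW L u, RetOp.comp_left (RetOp.comp_right (hret s)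
              (upW_mem hu)) (upW_mem hv), ?_⟩
            have h1 : upW L v ∘ₗ upW L (π s) ∘ₗ upW L u = upW L (v ∘ₗ π s ∘ₗ u) := by
              change (v.baseChange L) ∘ₗ ((π s).baseChange L) ∘ₗ (u.baseChange L) =
                (v ∘ₗ π s ∘ₗ u).baseChange L
              rw [LinearMap.baseChange_comp, LinearMap.baseChange_comp]
            rw [h1]
            exact IsDelta.up huv
          · refine ⟨0, Submodule.zero_mem _, ?_⟩
            intro j x hx
            split_ifs with hij
            · rw [(baseW W L).gr_eq_bot Y j (by omega), Submodule.mem_bot] at hx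
              rw [hx]
              rfl
            · rfl
      choose! T hT hT' using hdel
      exact ⟨∑ i ∈ Finset.range (b + 1), T i, Submodule.sum_mem _ (fun i hi => hT i (by
        rw [Finset.mem_range] at hi; omega)), fixes_sum (fun i hi => hT' i hi)⟩
  intro b Z hZ j hj
  apply homEqNumIn_base (L := L)
  obtain ⟨T, hT, hT'⟩ : ∃ T ∈ RetOp (baseW W L) (WCls D hR' ∅) Z Z,
      Fixes (baseW W L) Z b T := by
    induction hZ with
    | base hY => exact hone b _ hY
    | prod _ _ h1 h2 =>
      obtain ⟨T, hT, hT'⟩ := h1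
      obtain ⟨U, hU, hU'⟩ := h2
      exact ⟨extHom _ T U, RetOp.ext WCls.tensor hT hU, hT'.ext hU'⟩
  exact homEqNumIn_of_fixes hnum hT hT' hj

end Final

end Pool.Agent.L0h13.DN
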