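import Pool.Agent.L0h13.DN.Defs
import Pool.Agent.L0h13.DN.Comm
import Pool.Agent.L0h13.DN.Bal
import Pool.Agent.R908.MainB

/-!
# The direct factors of the cohomology of degree at most the dimension
-/

open CategoryTheory AlgebraicGeometry TensorProduct Polynomial

universe u v

namespace Pool.Agent.L0h13.DN

open Pool.Agent.H914 Pool.Agent.H914.VarClass Pool.Agent.H914.VarClass.Obj
  Pool.Agent.H914.WeilCohomology Pool.Agent.H281R3.HT Pool.Agent.W534 Pool.Agent.R908

variable {k : Type u} [Field k] {𝒱 : VarClass k} {ops : CycleOps 𝒱}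
  {W : WeilCohomology.{u, v} ops} {p : ℕ} {Φ : FrobSystem W p} {X : 𝒱.Obj} {i : ℕ} {f : ℚ[X]}

lemma fr_mem (Φ : FrobSystem W p) (X : 𝒱.Obj) : fr Φ X ∈ KOp W X X 0 := KOp.mapHom (Φ.Fr X)

/-- The Künneth projector. -/
lemma exists_projector (h : IsPart Φ X i f) : ∃ π : Module.End W.K (W.H X),
    π ∈ KOp W X X 0 ∧ (∀ j, ∀ x ∈ W.gr X j, π x = if i = j then x else 0) ∧
      π * fr Φ X = fr Φ X * π := by
  classical
  have hsep : ∀ j : ℕ, ∃ g : W.K[X], (j ≠ i → IsCoprime (f.map (algebraMap ℚ W.K)) g ∧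
      KillsOn (frobAll Φ X) (W.gr X j) g) := by
    intro j
    by_cases hj : j = i
    · exact ⟨0, fun h => absurd hj h⟩
    · obtain ⟨g, hg⟩ := h.separated j hj
      exact ⟨g, fun _ => hg⟩
  choose g hg using hsep
  set H : W.K[X] := ∏ j ∈ (Finset.range (2 * X.dim + 1)).erase i, g j with hH
  have hcop : IsCoprime (f.map (algebraMap ℚ W.K)) H :=
    IsCoprime.prod_right (fun j hj => (hg j (Finset.ne_of_mem_erase hj)).1)
  obtain ⟨a, b, hab⟩ := hcop
  refine ⟨aeval (fr Φ X) (b * H), KOp.aeval (fr_mem Φ X) _, ?_, ?_⟩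
  · intro j x hx
    by_cases hj : i = j
    · subst hj
      rw [if_pos rfl]
      have h1 : b * H = 1 - a * f.map (algebraMap ℚ W.K) := by
        rw [← hab]; ring
      have h2 : aeval (fr Φ X) (f.map (algebraMap ℚ W.K)) x = 0 := h.kills x hx
      rw [h1, map_sub, map_one, map_mul, LinearMap.sub_apply, Module.End.one_apply,
        Module.End.mul_apply, h2, map_zero, sub_zero]
    · rw [if_neg hj]
      by_cases hj2 : j < 2 * X.dim + 1
      · have hmem : j ∈ (Finset.range (2 * X.dim + 1)).erase i :=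
          Finset.mem_erase.2 ⟨fun h => hj h.symm, Finset.mem_range.2 hj2⟩
        have h1 : b * H = (b * ∏ j ∈ ((Finset.range (2 * X.dim + 1)).erase i).erase j, g j) *
            g j := by
          rw [hH, ← Finset.mul_prod_erase _ _ hmem]
          ring
        have h2 : aeval (fr Φ X) (g j) x = 0 := (hg j (fun h => hj h.symm)).2 x hx
        rw [h1, map_mul, Module.End.mul_apply, h2, map_zero]
      · have h1 : x = 0 := by
          rw [W.gr_eq_bot X j (by omega), Submodule.mem_bot] at hx
          exact hx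
        rw [h1, map_zero]
  · calc aeval (fr Φ X) (b * H) * fr Φ X = aeval (fr Φ X) (b * H) * aeval (fr Φ X)
          (Polynomial.X : W.K[X]) := by rw [aeval_X]
      _ = aeval (fr Φ X) ((Polynomial.X : W.K[X]) * (b * H)) := by
          rw [← map_mul, mul_comm]
      _ = fr Φ X * aeval (fr Φ X) (b * H) := by rw [map_mul, aeval_X]

lemma sqf_map (hf : Squarefree f) : Squarefree (f.map (algebraMap ℚ W.K)) :=
  ((PerfectField.separable_iff_squarefree.2 hf).map).squarefree

/-- The direct factor given by a pair of a variety and a degree. -/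
theorem exists_piece (h : IsPart Φ X i f) (hf : Squarefree f) :
    ∃ (π : Module.End W.K (W.H X)) (θ : Module.End W.K (W.H X)) (δ : ℤ),
      (∀ j, ∀ x ∈ W.gr X j, π x = if i = j then x else 0) ∧
      IsPiece Φ X π (f.map (algebraMap ℚ W.K)) (((p : W.K) ^ Φ.e X) ^ i) δ θ := by
  obtain ⟨π, hπK, hπ, hπF⟩ := exists_projector h
  obtain ⟨D, hD, hsc, hHL⟩ := h.polarization
  have hself : ∀ x ∈ W.gr X i, π x = x := by
    intro x hx
    rw [hπ i x hx, if_pos rfl]
  have hfr : ∀ j, ∀ x ∈ W.gr X j, fr Φ X x ∈ W.gr X j := fun j x hx => W.map_mem _ hx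
  have hπmem : ∀ x, π x ∈ W.gr X i := by
    intro x
    refine gr_induction (W.isInternal X) (p := fun x => π x ∈ W.gr X i) ?_ ?_ x
    · intro j x hx
      rw [hπ j x hx]
      split_ifs with hj
      · rw [hj]; exact hx
      · exact Submodule.zero_mem _
    · intro x y hx hy
      rw [map_add]
      exact Submodule.add_mem _ hx hy
  have hfq : fr Φ X (W.cl X D) = ((p : W.K) ^ Φ.e X) • W.cl X D := by
    have h1 : fr Φ X (W.cl X D) = ((p ^ Φ.e X : ℕ) : W.K) • W.cl X D := hsc
    rw [h1, Nat.cast_pow]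
  have hmulfr : ∀ x y : W.H X, fr Φ X (x * y) = fr Φ X x * fr Φ X y :=
    fun x y => map_mul (W.map (Φ.Fr X)) x y
  have hlef : ∀ (n : ℕ) (x : W.H X), fr Φ X (lefP W X D n x) =
      (((p : W.K) ^ Φ.e X) ^ n) • lefP W X D n (fr Φ X x) := by
    intro n x
    induction n with
    | zero => rw [pow_zero, one_smul]; rfl
    | succ n ih =>
      have h1 : ∀ y, lefP W X D (n + 1) y = W.cl X D * lefP W X D n y := by
        intro y
        rw [lefP, pow_succ', Module.End.mul_apply]
        rfl
      rw [h1, h1, hmulfr, hfq, ih, smul_mul_smul_comm, pow_succ']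
  have hpne : ((p : W.K) ^ Φ.e X) ≠ 0 := pow_ne_zero _ (cast_p_ne Φ)
  have hin : i ≤ X.dim := h.le
  refine ⟨π, lefP W X D (X.dim - i), ((X.dim - i : ℕ) : ℤ), hπ,
    { mem := hπK
      idem := ?_
      comm := ?_
      sqf := sqf_map hf
      poly := ?_
      tate := ?_
      θ_mem := lefP_mem hD _
      c_ne := pow_ne_zero _ hpne
      θ_eq := ?_
      nondeg := ?_ }⟩
  · apply LinearMap.ext
    intro x
    rw [LinearMap.comp_apply, hself _ (hπmem x)]
  · exact hπF.symm
  · apply LinearMap.ext
    intro x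
    rw [LinearMap.comp_apply]
    exact h.kills _ (hπmem x)
  · intro φ h1 h2 h3
    have hφmem : ∀ x, φ x ∈ W.gr X i := by
      intro x
      rw [← h2]
      exact hπmem _
    rcases h.full with ⟨hst, hch⟩ | hsp
    · have hφst : ∀ x ∈ W.gr X i, φ x ∈ W.gr X i := fun x _ => hφmem x
      obtain ⟨Q, hQ⟩ := exists_aeval_of_comm (F := (frobAll Φ X).restrict hst)
        (φ := φ.restrict hφst) (by rw [hch]; exact sqf_map hf) (by
          apply LinearMap.ext
          intro x
          apply Subtype.ext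
          exact congrArg (fun F => F x.1) h3)
      have h4 : ∀ x ∈ W.gr X i, φ x = aeval (fr Φ X) Q x := by
        intro x hx
        have h5 := congrArg (fun F => (F ⟨x, hx⟩ : W.gr X i).1) hQ
        have h6 : ∀ n : ℕ, ((((frobAll Φ X).restrict hst) ^ n) ⟨x, hx⟩).1 =
            (fr Φ X ^ n) x := by
          intro n
          induction n with
          | zero => rfl
          | succ n ih =>
            rw [pow_succ', pow_succ', Module.End.mul_apply, Module.End.mul_apply, ← ih]
            rfl
        have h7 : (aeval ((frobAll Φ X).restrict hst) Q ⟨x, hx⟩).1 = aeval (fr Φ X) Q x := by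
          rw [aeval_eq_sum_range, aeval_eq_sum_range, LinearMap.sum_apply, LinearMap.sum_apply,
            AddSubmonoidClass.coe_finset_sum]
          refine Finset.sum_congr rfl (fun n _ => ?_)
          rw [LinearMap.smul_apply, LinearMap.smul_apply, Submodule.coe_smul, h6]
        exact h5.trans h7
      have h5 : φ = aeval (fr Φ X) Q ∘ₗ π := by
        apply LinearMap.ext
        intro x
        conv_lhs => rw [← h1]
        rw [LinearMap.comp_apply, LinearMap.comp_apply]
        exact h4 _ (hπmem x)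
      rw [h5]
      exact KOp.cast (KOp.comp (KOp.aeval (fr_mem Φ X) Q) hπK) (add_zero 0)
    · obtain ⟨ψ, hψ', h4⟩ := hsp φ (fun x _ => hφmem x)
        (fun x _ => congrArg (fun F => F x) h3)
      have hψ := cycOps_le X hψ'
      have h5 : φ = ψ ∘ₗ π := by
        apply LinearMap.ext
        intro x
        conv_lhs => rw [← h1]
        rw [LinearMap.comp_apply]
        exact (h4 (π x) (hπmem x)).symm
      rw [h5]
      exact KOp.cast (KOp.comp hψ hπK) (add_zero 0)
  · intro x y
    obtain ⟨a, ha, hxa⟩ : ∃ a ∈ W.gr X i, a = π x := ⟨_, hπmem x, rfl⟩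
    obtain ⟨b, hb, hyb⟩ : ∃ b ∈ W.gr X i, b = π y := ⟨_, hπmem y, rfl⟩
    rw [← hxa, ← hyb]
    have h1 := fr_tr (Φ := Φ) (a * lefP W X D (X.dim - i) b)
    rw [hmulfr, hlef, mul_smul_comm, map_smul, smul_eq_mul] at h1
    apply mul_left_cancel₀ (pow_ne_zero (X.dim - i) hpne)
    rw [h1, ← mul_assoc, ← pow_add, show X.dim - i + i = X.dim by omega]
  · intro x hx
    obtain ⟨a, ha, hxa⟩ : ∃ a ∈ W.gr X i, a = π x := ⟨_, hπmem x, rfl⟩
    rw [← hxa] at hx ⊢
    apply W.nondeg
    intro b
    refine gr_induction (W.isInternal X) (p := fun b => W.tr X (a * b) = 0) ?_ ?_ b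
    · intro j b hb
      by_cases hj : j = 2 * X.dim - i
      · subst hj
        obtain ⟨b', hb', rfl⟩ := (hHL i hin).2 b hb
        have h1 := hx b'
        rw [hself b' hb'] at h1
        exact h1
      · exact W.tr_eq_zero (W.mul_mem ha hb) (by omega)
    · intro x y hx hy
      rw [mul_add, map_add, hx, hy, add_zero]

end Pool.Agent.L0h13.DN
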